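import Pool.Agent.P.MP_e45b92_nt.Uniq

set_option autoImplicit false

open Finset

namespace Pool.Agent.P.MP_e45b92_nt

noncomputable def w (R n : ℕ) : ℝ := ((R : ℝ) ^ n)⁻¹

def Iv (R n : ℕ) (j : ℤ) : Set ℝ := Set.Icc (j * w R n) ((j + 1) * w R n)

theorem w_pos {R : ℕ} (hR : 0 < R) (n : ℕ) : 0 < w R n := by
  have : (0 : ℝ) < R := by exact_mod_cast hR
  unfold w; positivity

theorem w_add {R : ℕ} (hR : 0 < R) (n m : ℕ) : w R n = (R : ℝ) ^ m * w R (n + m) := by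
  have : (0 : ℝ) < R := by exact_mod_cast hR
  unfold w; rw [pow_add]; field_simp

theorem w_anti {R : ℕ} (hR : 0 < R) {n m : ℕ} (h : n ≤ m) : w R m ≤ w R n := by
  have : (1 : ℝ) ≤ R := by exact_mod_cast hR
  exact inv_anti₀ (by positivity) (pow_le_pow_right₀ this h)

theorem Iv_sub {R : ℕ} (hR : 0 < R) (n : ℕ) (j : ℤ) (t : ℕ) (ht : t < R) :
    Iv R (n + 1) (R * j + t) ⊆ Iv R n j := by
  have h0 := w_pos hR (n + 1)
  have h1 := w_add hR n 1
  have h2 : (t : ℝ) + 1 ≤ R := by exact_mod_cast ht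
  have h3 : (0 : ℝ) ≤ t := by positivity
  apply Set.Icc_subset_Icc <;> rw [h1] <;> push_cast <;> nlinarith

theorem left_mem {R : ℕ} (hR : 0 < R) (n : ℕ) (j : ℤ) : j * w R n ∈ Iv R n j :=
  ⟨le_rfl, by have := w_pos hR n; nlinarith⟩

noncomputable def hit (ω c : ℝ) (k : ℕ) : Finset ℤ := Icc (⌊c / ω⌋ - k) (⌊c / ω⌋ + k)

theorem card_hit (ω c : ℝ) (k : ℕ) : (hit ω c k).card = 2 * k + 1 := by
  simp only [hit, Int.card_Icc]; omega

theorem mem_hit {R n k : ℕ} (hR : 0 < R) {j : ℤ} {a c : ℝ} (ha : a ∈ Iv R n j)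
    (h : |a - c| < k * w R n) : j ∈ hit (w R n) c k := by
  have h0 := w_pos hR n
  obtain ⟨h1, h2⟩ := abs_lt.1 h
  obtain ⟨h3, h4⟩ := ha
  rw [hit, mem_Icc]
  constructor
  · have : ⌊c / w R n⌋ < j + 1 + k := by
      rw [Int.floor_lt, div_lt_iff₀ h0]; push_cast; linarith
    omega
  · have : j - k ≤ ⌊c / w R n⌋ := by
      rw [Int.le_floor, le_div_iff₀ h0]; push_cast; linarith
    omega

def ch (R : ℕ) (s : Finset ℤ) : Finset ℤ := (s ×ˢ range R).image fun p => R * p.1 + p.2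

theorem card_ch {R : ℕ} (s : Finset ℤ) : (ch R s).card = s.card * R := by
  rw [ch, card_image_of_injOn, card_product, card_range]
  rintro ⟨a, t⟩ h ⟨b, u⟩ h' e
  simp only [coe_product, coe_range, Set.mem_prod, Set.mem_Iio] at h h'
  simp only at e
  have ht : (t : ℤ) < R := by exact_mod_cast h.2
  have hu : (u : ℤ) < R := by exact_mod_cast h'.2
  have hab : a = b := by
    by_contra hne
    rcases lt_or_gt_of_ne hne with h1 | h1
    · have : (R : ℤ) * (a + 1) ≤ R * b := mul_le_mul_of_nonneg_left (by omega) (by positivity)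
      nlinarith
    · have : (R : ℤ) * (b + 1) ≤ R * a := mul_le_mul_of_nonneg_left (by omega) (by positivity)
      nlinarith
  subst hab
  have : t = u := by omega
  rw [this]

theorem mem_ch {R : ℕ} (hR : 0 < R) {s : Finset ℤ} {j : ℤ} (h : j ∈ ch R s) (n : ℕ) :
    ∃ j' ∈ s, Iv R (n + 1) j ⊆ Iv R n j' := by
  obtain ⟨⟨a, t⟩, h1, rfl⟩ := mem_image.1 h
  rw [mem_product, mem_range] at h1
  exact ⟨a, h1.1, Iv_sub hR n a t h1.2⟩

/-- A cover by intervals sorted by level, with few intervals on each level. -/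
structure Cov (G : ℕ) where
  x : ℕ → ℝ
  lev : ℕ → ℕ
  u : ℕ → ℕ
  hu : ∀ n, u (n + 1) ≤ G * u n
  hu1 : ∀ n, 1 ≤ u n
  hF : ∀ n, ∃ F : Finset ℕ, (∀ i, lev i = n + 1 → i ∈ F) ∧ F.card ≤ 2 * u n

def Cov.Av {G : ℕ} (C : Cov G) (n : ℕ) (a : ℝ) : Prop :=
  ∀ i, C.lev i ≤ n → w (G + 15) (C.lev i) ≤ |a - C.x i|

section
variable {G : ℕ} (C : Cov G) (S : Par) (n0 : ℕ) (S0 : Finset ℤ)

def Good (n : ℕ) (j : ℤ) : Prop := ∀ a ∈ Iv (G + 15) n j, S.Av (w (G + 15) n) a ∧ C.Av n a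

open Classical in
noncomputable def St : ℕ → Finset ℤ
  | 0 => S0
  | t + 1 => (ch (G + 15) (St t)).filter (Good C S (n0 + t + 1))

theorem St_ref (u t : ℕ) : ∀ j ∈ St C S n0 S0 (u + t), ∃ j' ∈ St C S n0 S0 u,
    Iv (G + 15) (n0 + (u + t)) j ⊆ Iv (G + 15) (n0 + u) j' := by
  classical
  induction t with
  | zero => exact fun j hj => ⟨j, hj, subset_rfl⟩
  | succ t ih =>
    intro j hj
    obtain ⟨j1, h1, h2⟩ := mem_ch (by omega) (mem_filter.1 hj).1 (n0 + (u + t))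
    obtain ⟨j2, h3, h4⟩ := ih j1 h1
    exact ⟨j2, h3, h2.trans h4⟩

def Key (n m i : ℕ) (f : Fin 3) (U : ℤ) (c : ℝ) : Prop :=
  ∃ ρ, S.Ob f i c ρ ∧ w (G + 15) (n + 1) ≤ ρ ∧ ρ ≤ w (G + 15) n ∧
    ∃ a ∈ Iv (G + 15) m U, |a - c| < ρ

theorem Key_uniq (hR : S.R = (G + 15 : ℕ)) {m i : ℕ} {f : Fin 3} {U : ℤ} {c c' : ℝ}
    (hU : Good C S m U) (h : Key (G := G) S (m + i + 1) m i f U c)
    (h' : Key (G := G) S (m + i + 1) m i f U c') : c = c' := by
  have h0 : 0 < G + 15 := by omega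
  obtain ⟨ρ, o, l, u, a, ha, hc⟩ := h
  obtain ⟨ρ', o', l', u', a', ha', hc'⟩ := h'
  have e1 : w (G + 15) m = S.R ^ (i + 2) * w (G + 15) (m + i + 1 + 1) := by
    rw [hR]; exact w_add h0 m (i + 2)
  have e2 : w (G + 15) (m + i + 1) = S.R * w (G + 15) (m + i + 1 + 1) := by
    rw [hR, w_add h0 (m + i + 1) 1, pow_one]
  have e3 : w (G + 15) (m + i + 1) ≤ w (G + 15) m := w_anti h0 (by omega)
  have key : ∀ {a c ρ : ℝ}, a ∈ Iv (G + 15) m U → |a - c| < ρ → ρ ≤ w (G + 15) (m + i + 1) →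
      |U * w (G + 15) m - c| ≤ 2 * S.R ^ (i + 2) * w (G + 15) (m + i + 1 + 1) := by
    intro a c ρ ha hc u
    obtain ⟨h1, h2⟩ := abs_lt.1 hc
    obtain ⟨h3, h4⟩ := ha
    rw [mul_assoc, ← e1, abs_le]
    constructor <;> linarith
  exact S.uniq ⟨w_pos h0 _, l, e2 ▸ u, l', e2 ▸ u', key ha hc u, key ha' hc' u',
    e1 ▸ (hU _ (left_mem h0 m U)).1⟩ o o'

variable (hR : S.R = (G + 15 : ℕ)) (hG : 49 ≤ G)
  (hinit : ∀ f i c ρ, S.Ob f i c ρ → ρ * S.R ^ (i + 1) < w (G + 15) n0)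
  (h0 : ∀ j ∈ S0, ∀ a ∈ Iv (G + 15) n0 j, C.Av n0 a)
include hinit h0

theorem St_good (t : ℕ) : ∀ j ∈ St C S n0 S0 t, Good C S (n0 + t) j := by
  classical
  cases t with
  | zero =>
    intro j hj a ha
    refine ⟨fun f i c ρ ho hρ => ?_, h0 j hj a ha⟩
    have h1 := hinit f i c ρ ho
    have h2 : 1 ≤ S.R ^ (i + 1) := one_le_pow₀ S.R1
    have h3 := w_pos (R := G + 15) (by omega) (n0 + 0)
    simp only [add_zero] at hρ h3
    nlinarith
  | succ t => exact fun j hj => (mem_filter.1 hj).2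

include hR in
theorem St_step (t : ℕ) : (St C S n0 S0 t).card * (G + 15) ≤ (St C S n0 S0 (t + 1)).card +
    3 * (∑ u ∈ range t, (St C S n0 S0 u).card) * (2 * (G + 15) + 1) + 2 * C.u (n0 + t) * 3 := by
  classical
  have hp : 0 < G + 15 := by omega
  obtain ⟨F, hF, hFc⟩ := C.hF (n0 + t)
  have hcen : ∀ (f : Fin 3) (u : ℕ) (U : ℤ), ∃ c0 : ℝ, u < t → U ∈ St C S n0 S0 u → ∀ c,
      Key (G := G) S (n0 + t) (n0 + u) (t - 1 - u) f U c → c = c0 := by
    intro f u U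
    by_cases h : ∃ c, Key (G := G) S (n0 + t) (n0 + u) (t - 1 - u) f U c
    · obtain ⟨c0, h⟩ := h
      refine ⟨c0, fun hu hU c hc => ?_⟩
      rw [show n0 + t = n0 + u + (t - 1 - u) + 1 by omega] at h hc
      exact Key_uniq C S hR (St_good C S n0 S0 hinit h0 u U hU) hc h
    · exact ⟨0, fun _ _ c hc => absurd ⟨c, hc⟩ h⟩
  choose cen hcen using hcen
  set ω := w (G + 15) (n0 + t + 1) with hω
  set A := ((univ : Finset (Fin 3)) ×ˢ (range t).sigma (St C S n0 S0)).biUnion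
    fun p => hit ω (cen p.1 p.2.1 p.2.2) (G + 15) with hA
  set B := F.biUnion fun i => hit ω (C.x i) 1 with hB
  have cA : A.card ≤ 3 * (∑ u ∈ range t, (St C S n0 S0 u).card) * (2 * (G + 15) + 1) := by
    refine (card_biUnion_le_card_mul _ _ _ fun p _ => (card_hit _ _ _).le).trans ?_
    rw [card_product, card_sigma]; simp
  have cB : B.card ≤ 2 * C.u (n0 + t) * 3 :=
    (card_biUnion_le_card_mul _ _ 3 fun p _ => (card_hit _ _ _).le).trans
      (Nat.mul_le_mul_right _ hFc)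
  have hsub : ch (G + 15) (St C S n0 S0 t) ⊆ St C S n0 S0 (t + 1) ∪ A ∪ B := by
    intro j hj
    by_cases hg : Good C S (n0 + t + 1) j
    · exact mem_union_left _ (mem_union_left _ (mem_filter.2 ⟨hj, hg⟩))
    obtain ⟨j1, h1, h2⟩ := mem_ch hp hj (n0 + t)
    simp only [Good, not_forall, not_and_or] at hg
    obtain ⟨a, ha, hg⟩ := hg
    obtain ⟨g1, g2⟩ := St_good C S n0 S0 hinit h0 t j1 h1 a (h2 ha)
    rcases hg with hg | hg
    · simp only [Par.Av, not_forall, not_le] at hg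
      obtain ⟨f, i, c, ρ, ho, l, hc⟩ := hg
      have u : ρ < w (G + 15) (n0 + t) := by
        by_contra h
        linarith [g1 f i c ρ ho (not_lt.1 h)]
      have hi : i < t := by
        by_contra h
        have h3 := hinit f i c ρ ho
        rw [w_add hp n0 (t + 1), ← hR] at h3
        have h4 := S.pw (show t + 1 ≤ i + 1 by omega)
        have h5 := w_pos hp (n0 + t + 1)
        have h6 : 0 < S.R ^ (i + 1) := pow_pos S.R0 _
        have : S.R ^ (t + 1) * ω ≤ S.R ^ (i + 1) * ρ := by gcongr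
        rw [← add_assoc] at h3
        linarith
      obtain ⟨U, hU, h3⟩ := St_ref C S n0 S0 (t - 1 - i) (i + 1) j1
        (by rwa [show t - 1 - i + (i + 1) = t by omega])
      rw [show t - 1 - i + (i + 1) = t by omega] at h3
      have h4 := hcen f (t - 1 - i) U (by omega) hU c
        ⟨ρ, by rwa [show t - 1 - (t - 1 - i) = i by omega], l, u.le, a, h3 (h2 ha), hc⟩
      refine mem_union_left _ (mem_union_right _ (mem_biUnion.2 ⟨(f, ⟨t - 1 - i, U⟩), ?_, ?_⟩))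
      · simp only [mem_product, mem_univ, mem_sigma, mem_range, true_and]
        exact ⟨by omega, hU⟩
      · simp only [← h4]
        refine mem_hit hp ha (hc.trans (u.trans_eq ?_))
        rw [w_add hp (n0 + t) 1, pow_one]
    · simp only [Cov.Av, not_forall, not_le] at hg
      obtain ⟨i, l, hc⟩ := hg
      have hi : C.lev i = n0 + t + 1 := by
        by_contra h
        linarith [g2 i (by omega)]
      refine mem_union_right _ (mem_biUnion.2 ⟨i, hF i hi, mem_hit hp ha ?_⟩)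
      rw [hi] at hc
      simpa using hc
  have := (card_le_card hsub).trans ((card_union_le _ _).trans
    (Nat.add_le_add_right (card_union_le _ _) _))
  rw [card_ch] at this
  omega

include hR hG in
theorem St_card (hS : C.u n0 ≤ S0.card) (t : ℕ) :
    G * ∑ u ∈ range t, (St C S n0 S0 u).card ≤ (St C S n0 S0 t).card ∧
    C.u (n0 + t) ≤ (St C S n0 S0 t).card ∧ (G + 1) ^ t * S0.card ≤ (St C S n0 S0 t).card := by
  induction t with
  | zero => simp [St, hS]
  | succ t ih =>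
    obtain ⟨h1, h2, h3⟩ := ih
    have h4 := St_step C S n0 S0 hR hinit h0 t
    have h5 := C.hu (n0 + t)
    rw [sum_range_succ]
    set X := ∑ u ∈ range t, (St C S n0 S0 u).card
    set Y := (St C S n0 S0 t).card
    set Z := (St C S n0 S0 (t + 1)).card
    have h6 : (G + 1) * Y ≤ Z := by nlinarith
    refine ⟨by nlinarith, ?_, ?_⟩
    · rw [← add_assoc]; nlinarith
    · calc (G + 1) ^ (t + 1) * S0.card = (G + 1) * ((G + 1) ^ t * S0.card) := by ring
        _ ≤ (G + 1) * Y := by gcongr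
        _ ≤ Z := h6

end

end Pool.Agent.P.MP_e45b92_nt
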