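import Pool.Agent.P.MP_e45b92_nt.Stage

set_option autoImplicit false

open MeasureTheory Set Metric Filter
open scoped ENNReal NNReal Topology

namespace Pool.Agent.P.MP_e45b92_nt

theorem exists_cover {X : Type} [MetricSpace X] [MeasurableSpace X] [BorelSpace X] [Nonempty X]
    {C : Set X} {s : ℝ} (hs : 0 < s) (hC : μH[s] C = 0) {r η : ℝ} (hr : 0 < r) (hη : 0 < η) :
    ∃ (c : ℕ → X) (d : ℕ → ℝ), (∀ i, 0 < d i ∧ d i ≤ r) ∧ C ⊆ ⋃ i, closedBall (c i) (d i) ∧
      ∑' i, ENNReal.ofReal (d i ^ s) ≤ ENNReal.ofReal η := by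
  classical
  rw [Measure.hausdorffMeasure_apply] at hC
  have h0 : 0 < ENNReal.ofReal (η / 2) := ENNReal.ofReal_pos.2 (by linarith)
  have h1 := (le_iSup₂_of_le (ENNReal.ofReal r) (ENNReal.ofReal_pos.2 hr) le_rfl).trans hC.le
  have h2 := h1.trans_lt h0
  simp only [iInf_lt_iff] at h2
  obtain ⟨t, htC, htr, hsum⟩ := h2
  obtain ⟨e, he0, he⟩ := ENNReal.exists_pos_sum_of_countable h0.ne' ℕ
  have hfin : ∀ i, ediam (t i) ≠ ∞ := fun i => ((htr i).trans_lt ENNReal.ofReal_lt_top).ne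
  have hc : ∀ i, ∃ c : X, t i ⊆ closedBall c (diam (t i)) := by
    intro i
    rcases (t i).eq_empty_or_nonempty with h | ⟨c, hc⟩
    · exact ⟨Classical.arbitrary X, by simp [h]⟩
    · exact ⟨c, fun x hx => dist_le_diam_of_mem' (hfin i) hx hc⟩
  choose c hc using hc
  have hp : ∀ i, 0 < min r ((e i : ℝ) ^ s⁻¹) := fun i =>
    lt_min hr (Real.rpow_pos_of_pos (he0 i) _)
  refine ⟨c, fun i => max (diam (t i)) (min r ((e i : ℝ) ^ s⁻¹)), fun i =>
    ⟨lt_max_of_lt_right (hp i), max_le (ENNReal.toReal_le_of_le_ofReal hr.le (htr i))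
      (min_le_left _ _)⟩, htC.trans (iUnion_mono fun i => (hc i).trans
        (closedBall_subset_closedBall (le_max_left _ _))), ?_⟩
  rw [← add_halves η, ENNReal.ofReal_add (by linarith) (by linarith)]
  refine le_trans ?_ (add_le_add hsum.le he.le)
  rw [← ENNReal.tsum_add]
  refine ENNReal.tsum_le_tsum fun i => ?_
  beta_reduce
  rcases le_total (diam (t i)) (min r ((e i : ℝ) ^ s⁻¹)) with h | h
  · rw [max_eq_right h]
    refine le_add_left ?_
    rw [← ENNReal.ofReal_coe_nnreal]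
    refine ENNReal.ofReal_le_ofReal
      ((Real.rpow_le_rpow (hp i).le (min_le_right _ _) hs.le).trans ?_)
    rw [Real.rpow_inv_rpow (e i).coe_nonneg hs.ne']
  · rw [max_eq_left h]
    refine le_add_right ?_
    have hne : (t i).Nonempty := by
      by_contra h'
      rw [not_nonempty_iff_eq_empty] at h'
      have := hp i
      rw [h', diam_empty] at h
      linarith
    rw [iSup_pos hne, ← ENNReal.ofReal_rpow_of_nonneg diam_nonneg hs.le, diam,
      ENNReal.ofReal_toReal (hfin i)]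

theorem zero_of_cover {X κ : Type} [MetricSpace X] [MeasurableSpace X] [BorelSpace X]
    [Countable κ] {Y : Set X} {d : ℝ} (h : ∀ η : ℝ, 0 < η → ∃ (P : Set κ) (t : κ → Set X),
      (∀ y ∈ Y, ∃ i ∈ P, y ∈ t i) ∧ (∀ i ∈ P, ediam (t i) ≤ ENNReal.ofReal η) ∧
        ∑' i : P, ediam (t i) ^ d ≤ ENNReal.ofReal η) : μH[d] Y = 0 := by
  choose P t h1 h2 h3 using fun n : ℕ => h (1 / ((n : ℝ) + 1)) Nat.one_div_pos_of_nat
  have ht : Tendsto (fun n : ℕ => ENNReal.ofReal (1 / ((n : ℝ) + 1))) atTop (𝓝 0) := by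
    rw [← ENNReal.ofReal_zero]
    exact ENNReal.tendsto_ofReal tendsto_one_div_add_atTop_nhds_zero_nat
  refine le_antisymm ((Measure.hausdorffMeasure_le_liminf_tsum (ι := fun n => P n) d Y _ ht
    (fun n i => t n i) (Eventually.of_forall fun n i => h2 n i i.2)
    (Eventually.of_forall fun n y hy => ?_)).trans ?_) zero_le
  · obtain ⟨i, hi, hy⟩ := h1 n y hy
    exact mem_iUnion.2 ⟨⟨i, hi⟩, hy⟩
  · rw [← ht.liminf_eq]
    exact liminf_le_liminf (Eventually.of_forall h3)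

theorem ediam_Iv {R : ℕ} (n : ℕ) (j : ℤ) : ediam (Iv R n j) = ENNReal.ofReal (w R n) := by
  rw [Iv, Real.ediam_Icc]; congr 1; ring

theorem floor_mem {R : ℕ} (hR : 0 < R) (n : ℕ) (y : ℝ) : y ∈ Iv R n ⌊y / w R n⌋ := by
  have h0 := w_pos hR n
  have h1 := Int.floor_le (y / w R n)
  have h2 := Int.lt_floor_add_one (y / w R n)
  rw [le_div_iff₀ h0] at h1
  rw [div_lt_iff₀ h0] at h2
  exact ⟨h1, h2.le⟩

theorem w_small {R : ℕ} (hR : 1 < R) {η : ℝ} (hη : 0 < η) : ∃ m, w R m < η := by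
  obtain ⟨m, hm⟩ := pow_unbounded_of_one_lt η⁻¹ (show (1 : ℝ) < R by exact_mod_cast hR)
  exact ⟨m, (inv_lt_comm₀ ((inv_pos.2 hη).trans hm) hη).2 hm⟩

theorem exists_lev {R : ℕ} (hR : 1 < R) {m : ℕ} {d : ℝ} (h0 : 0 < d) (h : d ≤ w R (m + 2)) :
    ∃ n, m ≤ n ∧ w R (n + 3) < d ∧ d < w R (n + 1) := by
  have h1 : (1 : ℝ) < R := by exact_mod_cast hR
  have h2 : (R : ℝ) ^ (m + 2) ≤ d⁻¹ := (le_inv_comm₀ (by positivity) h0).2 h
  obtain ⟨k, k1, k2⟩ := exists_nat_pow_near ((one_le_pow₀ h1.le).trans h2) h1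
  have h3 : m + 2 < k + 1 := (pow_lt_pow_iff_right₀ h1).1 (h2.trans_lt k2)
  obtain ⟨n, rfl⟩ : ∃ n, k = n + 2 := ⟨k - 2, by omega⟩
  refine ⟨n, by omega, (inv_lt_comm₀ (by positivity) h0).2 k2, ?_⟩
  exact (lt_inv_comm₀ h0 (by positivity)).2 ((pow_lt_pow_right₀ h1 (by omega)).trans_le k1)

theorem weight_le {G a n : ℕ} (hG : 1 ≤ G) {s t d : ℝ} (hs : 0 < s) (ht : 0 ≤ t)
    (hRs : ((G + 15 : ℕ) : ℝ) ^ s ≤ G) (hd : w (G + 15) (n + 3) < d) :
    w (G + 15) (n + 1) ^ t / (G ^ (n - a) : ℕ) ≤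
      (((G + 15 : ℕ) : ℝ) ^ 2) ^ t * G ^ (a + 3) * d ^ (s + t) := by
  have hp : 0 < G + 15 := by omega
  have h0 := w_pos hp (n + 3)
  have hd0 := h0.trans hd
  have hG0 : (0 : ℝ) < G := by exact_mod_cast hG
  have h1 : w (G + 15) (n + 1) ^ t ≤ (((G + 15 : ℕ) : ℝ) ^ 2) ^ t * d ^ t := by
    rw [w_add hp (n + 1) 2, Real.mul_rpow (by positivity) h0.le]
    gcongr
  have h2 : (G : ℝ) ^ (n + 3) ≤ G ^ (a + 3) * (G ^ (n - a) : ℕ) := by
    rw [Nat.cast_pow, ← pow_add]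
    exact pow_le_pow_right₀ (by exact_mod_cast hG) (by omega)
  have h3 : 1 ≤ (G : ℝ) ^ (n + 3) * d ^ s := by
    have h4 : (((G + 15 : ℕ) : ℝ) ^ (n + 3)) ^ s ≤ (G : ℝ) ^ (n + 3) := by
      rw [← Real.rpow_natCast, ← Real.rpow_mul (by positivity), mul_comm,
        Real.rpow_mul (by positivity), Real.rpow_natCast]
      gcongr
    have h5 : (((G + 15 : ℕ) : ℝ) ^ (n + 3)) ^ s * w (G + 15) (n + 3) ^ s = 1 := by
      rw [← Real.mul_rpow (by positivity) h0.le, w, mul_inv_cancel₀ (by positivity), Real.one_rpow]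
    rw [← h5]
    gcongr
  rw [div_le_iff₀ (by positivity), Real.rpow_add hd0]
  calc w (G + 15) (n + 1) ^ t ≤ (((G + 15 : ℕ) : ℝ) ^ 2) ^ t * d ^ t * 1 := by rwa [mul_one]
    _ ≤ (((G + 15 : ℕ) : ℝ) ^ 2) ^ t * d ^ t * ((G ^ (a + 3) * (G ^ (n - a) : ℕ)) * d ^ s) := by
        gcongr
        exact h3.trans (by gcongr)
    _ = _ := by ring

/-- Slicing: if `E` contains all good points over `Y` and is `s + t`-null, then `Y` is `t`-null. -/
theorem slice {G : ℕ} (hG : 49 ≤ G) {s t : ℝ} (hs : 0 < s) (ht : 0 ≤ t)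
    (hRs : ((G + 15 : ℕ) : ℝ) ^ s ≤ G) (a : ℕ) (j0 : ℤ) {Y : Set ℝ} (hY : ∀ β ∈ Y, Irrational β)
    {E : Set (ℝ × ℝ)} (hE : ∀ β ∈ Y, ∀ x ∈ Iv (G + 15) a j0, (∀ k, Qk G β k x) → (x, β) ∈ E)
    (h : μH[s + t] E = 0) : μH[t] Y = 0 := by
  classical
  have hp : 0 < G + 15 := by omega
  refine zero_of_cover (κ := ℕ × ℤ) fun η hη => ?_
  obtain ⟨m0, hm0⟩ := w_small (show 1 < G + 15 by omega) hη
  set K : ℝ := (((G + 15 : ℕ) : ℝ) ^ 2) ^ t * G ^ (a + 3) with hK
  have hK0 : 0 < K := by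
    have : (0 : ℝ) < G := by exact_mod_cast (by omega : 0 < G)
    positivity
  obtain ⟨c, d, hd, hcov, hsum⟩ := exists_cover (by linarith) h (w_pos hp (m0 + a + 2))
    (show 0 < η / (3 * K) by positivity)
  choose L hL using fun i => exists_lev (show 1 < G + 15 by omega) (hd i).1 (hd i).2
  set N : ℕ × ℤ → Set ℕ := fun p =>
    {i | L i = p.1 ∧ p.2 ∈ hit (w (G + 15) (p.1 + 1)) (c i).2 1} with hN
  refine ⟨{p | ((G ^ (p.1 - a) : ℕ) : ℕ∞) < (N p).encard}, fun p => Iv (G + 15) (p.1 + 1) p.2,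
    fun β hβ => ?_, fun p hp' => ?_, ?_⟩
  · by_contra hcon
    have hF : ∀ n, ∃ F : Finset ℕ,
        (∀ i, (if |β - (c i).2| ≤ d i then L i + 1 else a + i + 1) = n + 1 → i ∈ F) ∧
          F.card ≤ 2 * G ^ (n - a) := by
      intro n
      have h1 : (N (n, ⌊β / w (G + 15) (n + 1)⌋)).encard ≤ ((G ^ (n - a) : ℕ) : ℕ∞) := by
        by_contra h2
        exact hcon ⟨(n, _), not_le.1 h2, floor_mem hp _ _⟩
      have h2 := finite_of_encard_le_coe h1
      rw [h2.encard_eq_coe_toFinset_card, Nat.cast_le] at h1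
      refine ⟨insert (n - a) h2.toFinset, fun i hi => ?_, ?_⟩
      · rw [Finset.mem_insert, Finite.mem_toFinset]
        split_ifs at hi with h3
        · obtain rfl : L i = n := by omega
          refine Or.inr ⟨rfl, mem_hit hp (floor_mem hp _ _) ?_⟩
          simpa using h3.trans_lt (hL i).2.2
        · left; omega
      · have := Finset.card_insert_le (n - a) h2.toFinset
        have h3 : 1 ≤ G ^ (n - a) := Nat.one_le_pow _ _ (by omega)
        omega
    let C : Cov G := ⟨fun i => (c i).1,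
      fun i => if |β - (c i).2| ≤ d i then L i + 1 else a + i + 1, fun n => G ^ (n - a),
      fun n => by rw [← pow_succ']; exact Nat.pow_le_pow_right (by omega) (by omega),
      fun n => Nat.one_le_pow _ _ (by omega), hF⟩
    obtain ⟨x, ⟨j, x1, x2⟩, x3, x4⟩ := exists_point C hG (hY β hβ) (n0 := a) (s0 := {j0})
      ⟨by simp [C], fun j _ x _ i hi => by
        have := (hL i).1
        simp only [C] at hi
        split_ifs at hi <;> omega⟩
    rw [Finset.mem_singleton.1 x1] at x2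
    obtain ⟨i, hi⟩ := mem_iUnion.1 (hcov (hE β hβ x x2 x3))
    rw [mem_closedBall, Prod.dist_eq, max_le_iff, Real.dist_eq, Real.dist_eq] at hi
    have h1 := x4 i
    simp only [C, if_pos hi.2] at h1
    linarith [(hL i).2.2, hi.1]
  · obtain ⟨i, hi⟩ := encard_pos.1 (zero_le.trans_lt hp')
    rw [ediam_Iv]
    exact ENNReal.ofReal_le_ofReal ((w_anti hp (by have := (hL i).1; have := hi.1; omega)).trans
      hm0.le)
  · set g : ℕ × ℤ → ℕ → ℝ≥0∞ := fun p i =>
      (N p).indicator (fun _ => ENNReal.ofReal (w (G + 15) (p.1 + 1) ^ t / (G ^ (p.1 - a) : ℕ))) i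
    have h1 : ∀ p : ℕ × ℤ, ((G ^ (p.1 - a) : ℕ) : ℕ∞) < (N p).encard →
        ediam (Iv (G + 15) (p.1 + 1) p.2) ^ t ≤ ∑' i, g p i := by
      intro p hp'
      have h0 := w_pos hp (p.1 + 1)
      have h2 : (0 : ℝ) < (G ^ (p.1 - a) : ℕ) := by
        exact_mod_cast Nat.pow_pos (by omega : 0 < G)
      rw [← tsum_subtype, ENNReal.tsum_set_const, ediam_Iv,
        ENNReal.ofReal_rpow_of_nonneg h0.le ht]
      calc ENNReal.ofReal (w (G + 15) (p.1 + 1) ^ t) = ((G ^ (p.1 - a) : ℕ) : ℝ≥0∞) *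
            ENNReal.ofReal (w (G + 15) (p.1 + 1) ^ t / (G ^ (p.1 - a) : ℕ)) := by
            rw [← ENNReal.ofReal_natCast, ← ENNReal.ofReal_mul h2.le, mul_div_cancel₀ _ h2.ne']
        _ ≤ _ := by
            gcongr
            exact_mod_cast hp'.le
    have h2 : ∀ i, ∑' p, g p i ≤ ENNReal.ofReal (3 * K) * ENNReal.ofReal (d i ^ (s + t)) := by
      intro i
      rw [tsum_eq_sum (s := (hit (w (G + 15) (L i + 1)) (c i).2 1).image fun j => (L i, j))]
      · refine (Finset.sum_le_card_nsmul _ _ (ENNReal.ofReal (K * d i ^ (s + t))) ?_).trans ?_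
        · intro p hp'
          obtain ⟨j, -, rfl⟩ := Finset.mem_image.1 hp'
          exact (indicator_le_self _ _ _).trans (ENNReal.ofReal_le_ofReal
            (weight_le (by omega) hs ht hRs (hL i).2.1))
        · refine (nsmul_le_nsmul_left zero_le (Finset.card_image_le.trans
            (card_hit _ _ _).le)).trans (le_of_eq ?_)
          rw [← ENNReal.ofReal_nsmul, ← ENNReal.ofReal_mul (by positivity)]
          congr 1
          simp only [nsmul_eq_mul]
          push_cast; ring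
      · intro p hp'
        refine indicator_of_notMem (fun hi => hp' ?_) _
        obtain ⟨n, j⟩ := p
        obtain ⟨e1, e2⟩ := hi
        simp only at e1 e2
        subst e1
        exact Finset.mem_image.2 ⟨j, e2, rfl⟩
    calc _ ≤ ∑' p : {p : ℕ × ℤ | ((G ^ (p.1 - a) : ℕ) : ℕ∞) < (N p).encard}, ∑' i, g p i :=
          ENNReal.tsum_le_tsum fun p => h1 p p.2
      _ ≤ ∑' p, ∑' i, g p i :=
          ENNReal.tsum_comp_le_tsum_of_injective Subtype.val_injective fun p => ∑' i, g p i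
      _ = ∑' i, ∑' p, g p i := ENNReal.tsum_comm
      _ ≤ ∑' i, ENNReal.ofReal (3 * K) * ENNReal.ofReal (d i ^ (s + t)) := ENNReal.tsum_le_tsum h2
      _ ≤ ENNReal.ofReal (3 * K) * ENNReal.ofReal (η / (3 * K)) := by
          rw [ENNReal.tsum_mul_left]; gcongr
      _ = _ := by
          rw [← ENNReal.ofReal_mul (by positivity), mul_div_cancel₀ _ (by positivity)]

theorem prod_zero {Y : Set ℝ} {t : ℝ} (ht : 0 < t) (h : μH[t] Y = 0) (k : ℤ) :
    μH[1 + t] (Icc (k : ℝ) (k + 1) ×ˢ Y) = 0 := by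
  classical
  refine zero_of_cover (κ := ℕ × ℕ) fun η hη => ?_
  have h2 : (0 : ℝ) < 4 * 2 ^ t := by positivity
  obtain ⟨c, d, hd, hcov, hsum⟩ := exists_cover ht h (show 0 < min 1 (η / 2) by positivity)
    (show 0 < η / (4 * 2 ^ t) by positivity)
  set Q : ℕ × ℕ → Set (ℝ × ℝ) := fun p =>
    Icc (k + p.2 * d p.1) (k + (p.2 + 1) * d p.1) ×ˢ closedBall (c p.1) (d p.1) with hQ
  have hdi : ∀ p, ediam (Q p) ≤ ENNReal.ofReal (2 * d p.1) := by
    intro p
    refine ediam_le_of_forall_dist_le fun x hx y hy => ?_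
    have h0 := (hd p.1).1
    rw [Prod.dist_eq, max_le_iff]
    constructor
    · rw [Real.dist_eq, abs_le]
      constructor <;> linarith [hx.1.1, hx.1.2, hy.1.1, hy.1.2]
    · linarith [dist_triangle_right x.2 y.2 (c p.1), mem_closedBall.1 hx.2, mem_closedBall.1 hy.2]
  refine ⟨{p | p.2 ∈ Finset.range (⌊1 / d p.1⌋₊ + 1)}, Q, fun x hx => ?_, fun p _ => ?_, ?_⟩
  · obtain ⟨i, hi⟩ := mem_iUnion.1 (hcov hx.2)
    have h0 := (hd i).1
    have h3 : 0 ≤ (x.1 - k) / d i := div_nonneg (by linarith [hx.1.1]) h0.le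
    have h4 := Nat.floor_le h3
    have h5 := Nat.lt_floor_add_one ((x.1 - k) / d i)
    rw [le_div_iff₀ h0] at h4
    rw [div_lt_iff₀ h0] at h5
    refine ⟨(i, ⌊(x.1 - k) / d i⌋₊), ?_, ⟨by linarith, by linarith⟩, hi⟩
    have : ⌊(x.1 - k) / d i⌋₊ ≤ ⌊1 / d i⌋₊ :=
      Nat.floor_le_floor (by gcongr; linarith [hx.1.2])
    simp only [mem_ofPred_eq, Finset.mem_range]
    omega
  · refine (hdi p).trans (ENNReal.ofReal_le_ofReal ?_)
    linarith [(hd p.1).2.trans (min_le_right _ _)]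
  · rw [tsum_subtype (f := fun p => ediam (Q p) ^ (1 + t)), ENNReal.tsum_prod']
    calc _ ≤ ∑' i, ENNReal.ofReal (4 * 2 ^ t) * ENNReal.ofReal (d i ^ t) := by
          refine ENNReal.tsum_le_tsum fun i => ?_
          have h0 := (hd i).1
          rw [tsum_eq_sum (s := Finset.range (⌊1 / d i⌋₊ + 1))
            fun j hj => indicator_of_notMem (a := (i, j)) (by exact hj) _]
          refine (Finset.sum_le_card_nsmul _ _ (ENNReal.ofReal ((2 * d i) ^ (1 + t)))
            fun j _ => (indicator_le_self _ _ _).trans ?_).trans ?_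
          · rw [← ENNReal.ofReal_rpow_of_nonneg (by linarith) (by linarith)]
            exact ENNReal.rpow_le_rpow (hdi (i, j)) (by linarith)
          · rw [← ENNReal.ofReal_nsmul, ← ENNReal.ofReal_mul h2.le, Finset.card_range,
              nsmul_eq_mul, Real.rpow_add (by linarith), Real.rpow_one,
              Real.mul_rpow (by norm_num) h0.le]
            refine ENNReal.ofReal_le_ofReal ?_
            have h3 := Nat.floor_le (show 0 ≤ 1 / d i by positivity)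
            rw [le_div_iff₀ h0] at h3
            have h4 := (hd i).2.trans (min_le_left _ _)
            have h5 : 0 < 2 ^ t * d i ^ t := by positivity
            push_cast
            nlinarith
      _ ≤ ENNReal.ofReal (4 * 2 ^ t) * ENNReal.ofReal (η / (4 * 2 ^ t)) := by
          rw [ENNReal.tsum_mul_left]; gcongr
      _ = _ := by rw [← ENNReal.ofReal_mul h2.le, mul_div_cancel₀ _ h2.ne']

theorem dim_prod_le (Y : Set ℝ) : dimH ((univ : Set ℝ) ×ˢ Y) ≤ 1 + dimH Y := by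
  refine ENNReal.le_of_forall_pos_le_add fun ε hε _ => ?_
  lift dimH Y to ℝ≥0 using Real.dimH_ne_top Y with d hd
  have h1 : μH[(d + ε : ℝ≥0)] Y = 0 := by
    refine hausdorffMeasure_of_dimH_lt ?_
    rw [← hd]
    exact_mod_cast lt_add_of_pos_right d hε
  have h2 : (univ : Set ℝ) ×ˢ Y = ⋃ k : ℤ, Icc (k : ℝ) (k + 1) ×ˢ Y := by
    rw [← iUnion_prod_const, iUnion_Icc_intCast]
  rw [h2, dimH_iUnion]
  refine iSup_le fun k => ?_
  have h3 := prod_zero (by positivity) h1 k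
  have h4 := dimH_le_of_hausdorffMeasure_ne_top (d := 1 + (d + ε))
    (s := Icc (k : ℝ) (k + 1) ×ˢ Y) (by push_cast at h3 ⊢; rw [h3]; exact ENNReal.zero_ne_top)
  rw [add_assoc]
  exact_mod_cast h4

theorem exists_G {s : ℝ} (hs : 0 < s) (hs1 : s < 1) :
    ∃ G : ℕ, 49 ≤ G ∧ ((G + 15 : ℕ) : ℝ) ^ s ≤ G := by
  obtain ⟨n, hn⟩ := exists_nat_ge ((2 : ℝ) ^ (1 - s)⁻¹)
  refine ⟨n + 49, by omega, ?_⟩
  have h0 : (0 : ℝ) < (n + 49 : ℕ) := by positivity
  have h1 : (2 : ℝ) ≤ ((n + 49 : ℕ) : ℝ) ^ (1 - s) := by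
    rw [← Real.rpow_inv_rpow (show (0 : ℝ) ≤ 2 by norm_num) (show 1 - s ≠ 0 by linarith)]
    refine Real.rpow_le_rpow (by positivity) (hn.trans ?_) (by linarith)
    exact_mod_cast Nat.le_add_right _ _
  calc ((n + 49 + 15 : ℕ) : ℝ) ^ s ≤ (2 * ((n + 49 : ℕ) : ℝ)) ^ s := by
        refine Real.rpow_le_rpow (by positivity) ?_ hs.le
        exact_mod_cast (by omega : n + 49 + 15 ≤ 2 * (n + 49))
    _ = 2 ^ s * ((n + 49 : ℕ) : ℝ) ^ s := Real.mul_rpow (by norm_num) h0.le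
    _ ≤ ((n + 49 : ℕ) : ℝ) ^ (1 - s) * ((n + 49 : ℕ) : ℝ) ^ s := by
        gcongr
        exact (Real.rpow_le_self_of_one_le (by norm_num) hs1.le).trans h1
    _ = _ := by rw [← Real.rpow_add h0, sub_add_cancel, Real.rpow_one]

theorem dim_ge {U Y : Set ℝ} (hU : IsOpen U) (hU' : U.Nonempty) (hY : ∀ β ∈ Y, Irrational β)
    (hY' : Y.Nonempty) {E : Set (ℝ × ℝ)}
    (hE : ∀ G, ∀ β ∈ Y, ∀ x ∈ U, (∀ k, Qk G β k x) → (x, β) ∈ E) : 1 + dimH Y ≤ dimH E := by
  by_contra hlt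
  rw [not_le] at hlt
  lift dimH Y to ℝ≥0 using Real.dimH_ne_top Y with d hd
  lift dimH E to ℝ≥0 using Real.dimH_ne_top E with D hD
  have h1 : (D : ℝ) < 1 + d := by exact_mod_cast hlt
  set γ : ℝ := (1 + d - D) / 3 with hγ
  have hs : (0 : ℝ) < max (1 / 2) (1 - γ) := lt_max_of_lt_left (by norm_num)
  obtain ⟨G, hG, hRs⟩ := exists_G hs (max_lt (by norm_num) (by linarith))
  obtain ⟨x, hx⟩ := hU'
  obtain ⟨r, hr, hb⟩ := Metric.isOpen_iff.1 hU x hx
  obtain ⟨a, ha⟩ := w_small (show 1 < G + 15 by omega) (show 0 < r / 4 by linarith)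
  obtain ⟨j0, hj⟩ := sub_iv (show 0 < G + 15 by omega) (n := a) (c := x) (η := r / 2)
    (by linarith)
  have ht : (0 : ℝ) ≤ max 0 (d - γ) := le_max_left _ _
  have h2 := slice hG hs ht hRs a j0 hY (E := E)
    (fun β hβ y hy => hE G β hβ y (hb (by rw [mem_ball, Real.dist_eq]; linarith [hj y hy])))
    (hausdorffMeasure_of_dimH_lt (d := NNReal.mk _ (add_nonneg hs.le ht)) (by
      rw [← hD, ENNReal.coe_lt_coe, ← NNReal.coe_lt_coe]
      show (D : ℝ) < _ + _
      linarith [le_max_right (1 / 2) (1 - γ), le_max_right 0 (d - γ)]))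
  rcases le_total (d - γ) 0 with h | h
  · rw [max_eq_left h] at h2
    have := Measure.one_le_hausdorffMeasure_zero_of_nonempty hY'
    rw [h2] at this
    simp at this
  · rw [max_eq_right h] at h2
    have := hausdorffMeasure_of_lt_dimH (s := Y) (d := NNReal.mk _ h) (by
      rw [← hd, ENNReal.coe_lt_coe, ← NNReal.coe_lt_coe]
      show (d : ℝ) - γ < d
      linarith)
    exact ENNReal.zero_ne_top (h2.symm.trans this)

end Pool.Agent.P.MP_e45b92_nt
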