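import Mathlib

set_option autoImplicit false

namespace Pool.Agent.P.MP_e45b92_nt

/-- Parameters of one stage. -/
structure Par where
  R : ℝ
  T : ℝ
  b : ℝ
  hR : 64 ≤ R
  hT : 1 ≤ T
  hb : ∀ q r : ℤ, 1 ≤ q → (q : ℝ) ≤ T → 1 ≤ 4 * T * |r + q * b|

namespace Par
variable (S : Par)

noncomputable def d : ℝ := 1 / (16 * S.R ^ 6)
noncomputable def e : ℝ := 1 / (128 * S.R ^ 12)

/-- A rational point `(p, g r, g q)` with centre `c` and radius `ρ`. -/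
structure Pt (p g q r : ℤ) (c ρ : ℝ) : Prop where
  hg : 1 ≤ g
  hq : 1 ≤ q
  cop : IsCoprime q r
  hc : c = -(p / (g * q : ℝ))
  hρ : ρ = S.e / (S.T * (g * q) * |(g * r : ℝ) + g * q * S.b|)

def PG (i : ℕ) (c ρ : ℝ) : Prop := ∃ p g q r : ℤ, S.Pt p g q r c ρ ∧
  (g * q : ℝ) * S.R ^ (4 * i) ≤ S.T ∧ S.T < g * q * S.R ^ (4 * i + 4) ∧
  S.d * S.R ^ i ≤ S.T * |r + q * S.b|

def PH (h : ℕ) (c ρ : ℝ) : Prop := ∃ (p g q r : ℤ) (i : ℕ), S.Pt p g q r c ρ ∧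
  (g * q : ℝ) * S.R ^ (4 * i) ≤ S.T ∧ h < i ∧
  S.R ^ h ≤ 4 * S.T * |r + q * S.b| ∧ 4 * S.T * |r + q * S.b| < S.R ^ (h + 1)

def PD (k : ℕ) (c ρ : ℝ) : Prop := ∃ A B C : ℤ, A ≠ 0 ∧ B ≠ 0 ∧
  |(A : ℝ)| * |(B : ℝ)| * S.R ^ (4 * k) ≤ S.d * S.T ∧
  S.d * S.T < |(A : ℝ)| * |(B : ℝ)| * S.R ^ (4 * k + 4) ∧
  c = -((B * S.b + C) / A) ∧ ρ = S.d * S.R ^ k / (S.T * |(A : ℝ)|)

def Ob (f : Fin 3) (i : ℕ) (c ρ : ℝ) : Prop :=
  (f = 0 ∧ S.PG i c ρ) ∨ (f = 1 ∧ S.PH i c ρ) ∨ (f = 2 ∧ S.PD i c ρ)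

def Av (W a : ℝ) : Prop := ∀ f i c ρ, S.Ob f i c ρ → W ≤ ρ → ρ ≤ |a - c|

theorem R0 : 0 < S.R := by linarith [S.hR]
theorem R1 : 1 ≤ S.R := by linarith [S.hR]
theorem T0 : 0 < S.T := by linarith [S.hT]
theorem d0 : 0 < S.d := by have := S.R0; unfold d; positivity
theorem e0 : 0 < S.e := by have := S.R0; unfold e; positivity
theorem de : S.d = 8 * S.e * S.R ^ 6 := by
  have := S.R0; unfold d e; field_simp; norm_num
theorem dR : S.d * S.R ^ 6 = 1 / 16 := by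
  have := S.R0; unfold d; field_simp
theorem pw {m n : ℕ} (h : m ≤ n) : S.R ^ m ≤ S.R ^ n := pow_le_pow_right₀ S.R1 h
theorem dRk {k : ℕ} (h : k ≤ 6) : S.d * S.R ^ k ≤ 1 / 16 := by
  rw [← S.dR]; exact mul_le_mul_of_nonneg_left (S.pw h) S.d0.le
theorem eR : S.e * S.R ^ 6 ≤ 1 / 128 := by
  have h := S.dRk (k := 0) (by norm_num)
  have := S.de
  simp only [pow_zero, mul_one] at h
  linarith
theorem d3 : 16 * S.R ^ 5 * S.d ^ 3 < S.e := by
  have h0 := S.R0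
  have h1 := S.R1
  unfold d e
  rw [div_pow, mul_div_assoc', div_lt_div_iff₀ (by positivity) (by positivity)]
  have h2 : S.R ^ 17 ≤ S.R ^ 18 := S.pw (by norm_num)
  have h3 : 0 < S.R ^ 17 := by positivity
  nlinarith

theorem xi_eq {p q a : ℝ} (hq : 0 < q) : |p + q * a| = q * |a - -(p / q)| := by
  rw [← abs_of_pos hq, ← abs_mul, abs_of_pos hq]; congr 1; field_simp; ring

/-- Avoiding all objects of radius at least `W` gives the product inequality. -/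
theorem prim_av {W a : ℝ} (hav : S.Av W a) (p r q : ℤ) (hq : 1 ≤ q) (hqT : (q : ℝ) ≤ S.T)
    (hW : W * (S.T * q * |r + q * S.b|) ≤ S.e) : S.e ≤ S.T * |p + q * a| * |r + q * S.b| := by
  have hR := S.R0
  have hT := S.T0
  have hg0 : 0 < Int.gcd q r := Int.gcd_pos_of_ne_zero_left _ (by omega)
  obtain ⟨q', r', hc, h1, h2⟩ := Int.exists_gcd_one hg0
  set g : ℤ := (Int.gcd q r : ℤ) with hg
  have hg1 : 1 ≤ g := by omega
  have hq' : 1 ≤ q' := by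
    by_contra h
    have : q' * g ≤ 0 := mul_nonpos_of_nonpos_of_nonneg (by omega) (by omega)
    omega
  have e1 : (q : ℝ) = g * q' := by rw [h1]; push_cast; ring
  have e2 : (r : ℝ) = g * r' := by rw [h2]; push_cast; ring
  have hq0 : (1 : ℝ) ≤ q := by exact_mod_cast hq
  have hg2 : (1 : ℝ) ≤ g := by exact_mod_cast hg1
  have hq2 : (1 : ℝ) ≤ q' := by exact_mod_cast hq'
  have hq3 : (q' : ℝ) ≤ S.T := by nlinarith
  have hy := S.hb q r hq hqT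
  have hy0 : 0 < |r + q * S.b| := by
    by_contra h
    have : 4 * S.T * |r + q * S.b| ≤ 0 :=
      mul_nonpos_of_nonneg_of_nonpos (by positivity) (not_lt.1 h)
    linarith
  have hpt : S.Pt p g q' r' (-(p / (q : ℝ))) (S.e / (S.T * q * |r + q * S.b|)) :=
    ⟨hg1, hq', Int.isCoprime_iff_gcd_eq_one.2 hc, by rw [e1], by rw [e1, e2]⟩
  have hR4 : 1 < S.R ^ 4 := one_lt_pow₀ (by linarith [S.hR]) (by norm_num)
  obtain ⟨i, hi1, hi2⟩ := exists_nat_pow_near (x := S.T / q) (y := S.R ^ 4)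
    ((le_div_iff₀ (by linarith)).2 (by linarith)) hR4
  rw [← pow_mul, le_div_iff₀ (by linarith)] at hi1
  rw [← pow_mul, div_lt_iff₀ (by linarith)] at hi2
  have hobj : ∃ f i, S.Ob f i (-(p / (q : ℝ))) (S.e / (S.T * q * |r + q * S.b|)) := by
    by_cases h : S.d * S.R ^ i ≤ S.T * |r' + q' * S.b|
    · refine ⟨0, i, Or.inl ⟨rfl, p, g, q', r', hpt, ?_, ?_, h⟩⟩
      · rw [← e1]; linarith
      · rw [← e1, show 4 * i + 4 = 4 * (i + 1) by ring]; linarith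
    · obtain ⟨h', hh1, hh2⟩ := exists_nat_pow_near (S.hb q' r' hq' hq3)
        (show 1 < S.R by linarith [S.hR])
      refine ⟨1, h', Or.inr (Or.inl ⟨rfl, p, g, q', r', i, hpt, ?_, ?_, hh1, hh2⟩)⟩
      · rw [← e1]; linarith
      · by_contra hlt
        have h3 := S.pw (not_lt.1 hlt)
        have h4 := S.dRk (k := 0) (by norm_num)
        simp only [pow_zero, mul_one] at h4
        have h5 : 0 < S.R ^ i := by positivity
        nlinarith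
  obtain ⟨f, i, ho⟩ := hobj
  have hD : 0 < S.T * q * |r + q * S.b| := by positivity
  have := hav f i _ _ ho ((le_div_iff₀ hD).2 hW)
  rw [div_le_iff₀ hD] at this
  rw [xi_eq (by linarith : (0 : ℝ) < q)]
  linarith

/-- The same for lines. -/
theorem dual_av {W a : ℝ} (hav : S.Av W a) (A B C : ℤ) (hA : A ≠ 0) (hB : B ≠ 0) (i : ℕ)
    (hN : |(A : ℝ)| * |(B : ℝ)| * S.R ^ (4 * i) ≤ S.d * S.T)
    (hW : W * (S.T * |(A : ℝ)|) ≤ S.d * S.R ^ i) :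
    S.d * S.R ^ i ≤ S.T * |A * a + B * S.b + C| := by
  have hR := S.R0
  have hT := S.T0
  have hd := S.d0
  have hA0 : 0 < |(A : ℝ)| := abs_pos.2 (by exact_mod_cast hA)
  have hB0 : 0 < |(B : ℝ)| := abs_pos.2 (by exact_mod_cast hB)
  have hN0 : 0 < |(A : ℝ)| * |(B : ℝ)| := by positivity
  have hR4 : 1 < S.R ^ 4 := one_lt_pow₀ (by linarith [S.hR]) (by norm_num)
  have h1 : 1 ≤ S.R ^ (4 * i) := one_le_pow₀ S.R1
  obtain ⟨k, hk1, hk2⟩ := exists_nat_pow_near (x := S.d * S.T / (|(A : ℝ)| * |(B : ℝ)|))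
    (y := S.R ^ 4) ((le_div_iff₀ hN0).2 (by nlinarith)) hR4
  rw [← pow_mul, le_div_iff₀ hN0] at hk1
  rw [← pow_mul, div_lt_iff₀ hN0] at hk2
  have hik : i ≤ k := by
    by_contra h
    have := S.pw (show 4 * (k + 1) ≤ 4 * i by omega)
    nlinarith
  have h2 : S.d * S.R ^ i ≤ S.d * S.R ^ k := mul_le_mul_of_nonneg_left (S.pw hik) hd.le
  have hD : 0 < S.T * |(A : ℝ)| := by positivity
  have := hav 2 k _ _ (Or.inr (Or.inr ⟨rfl, A, B, C, hA, hB, by linarith,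
    by rw [show 4 * k + 4 = 4 * (k + 1) by ring]; linarith, rfl, rfl⟩))
    ((le_div_iff₀ hD).2 (hW.trans h2))
  rw [div_le_iff₀ hD] at this
  have h3 : |A * a + B * S.b + C| = |(A : ℝ)| * |a - -((B * S.b + C) / A)| := by
    have : (A : ℝ) ≠ 0 := by exact_mod_cast hA
    rw [← abs_mul]; congr 1; field_simp; ring
  rw [h3]
  linarith

end Par

end Pool.Agent.P.MP_e45b92_nt
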