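import Pool.Agent.P.MP_e45b92_nt.Cnt

set_option autoImplicit false

namespace Pool.Agent.P.MP_e45b92_nt

/-- The system `(S_{ε,T})` has a solution. -/
def Sol (α β ε T : ℝ) : Prop :=
  ∃ p r q : ℤ, 1 ≤ q ∧ (q : ℝ) ≤ T ∧ |p + q * α| * |r + q * β| < ε / T

theorem irr_pos {b : ℝ} (hb : Irrational b) {q : ℤ} (hq : q ≠ 0) (r : ℤ) : 0 < |r + q * b| :=
  abs_pos.2 ((hb.intCast_mul hq).intCast_add r).ne_zero

theorem round_le (x : ℝ) (r : ℤ) : |((-round x : ℤ) : ℝ) + x| ≤ |r + x| := by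
  have := _root_.round_le x (-r)
  push_cast at this ⊢
  rwa [show -(round x : ℝ) + x = x - round x by ring, show r + x = x - -r by ring]

theorem lowb {b : ℝ} (hb : Irrational b) (M : ℕ) :
    ∃ c > 0, ∀ q r : ℤ, 1 ≤ q → q ≤ M → c ≤ |r + q * b| := by
  induction M with
  | zero => exact ⟨1, one_pos, fun q r h1 h2 => by omega⟩
  | succ M ih =>
    obtain ⟨c, hc, h⟩ := ih
    refine ⟨min c _, lt_min hc (irr_pos hb (q := (M + 1 : ℕ)) (by omega)
      (-round (((M + 1 : ℕ) : ℤ) * b))), fun q r h1 h2 => ?_⟩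
    by_cases h3 : q ≤ M
    · exact (min_le_left _ _).trans (h q r h1 h3)
    · obtain rfl : q = (M + 1 : ℕ) := by omega
      exact (min_le_right _ _).trans (round_le _ r)

theorem exists_T {b : ℝ} (hb : Irrational b) (T0 : ℕ) : ∃ T : ℕ, T0 ≤ T ∧ 1 ≤ T ∧
    ∀ q r : ℤ, 1 ≤ q → (q : ℝ) ≤ T → 1 ≤ 4 * (T : ℝ) * |r + q * b| := by
  by_contra hcon
  have H : ∀ T : ℕ, T0 + 2 ≤ T →
      ∃ q r : ℤ, 1 ≤ q ∧ (q : ℝ) ≤ T ∧ 4 * (T : ℝ) * |r + q * b| < 1 := by
    intro T hT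
    by_contra h
    refine hcon ⟨T, by omega, by omega, fun q r h1 h2 => ?_⟩
    by_contra h3
    exact h ⟨q, r, h1, h2, not_le.1 h3⟩
  obtain ⟨q0, r0, a1, a2, a3⟩ := H (T0 + 2) le_rfl
  have K : ∀ T : ℕ, T0 + 2 ≤ T → ∃ q r : ℤ, 1 ≤ q ∧ (q : ℝ) ≤ T ∧
      4 * (T : ℝ) * |r + q * b| < 1 ∧ q * r0 = q0 * r := by
    intro T hT
    induction T, hT using Nat.le_induction with
    | base => exact ⟨q0, r0, a1, a2, a3, rfl⟩
    | succ T hT ih =>
      obtain ⟨q, r, b1, b2, b3, b4⟩ := ih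
      obtain ⟨q', r', c1, c2, c3⟩ := H (T + 1) (by omega)
      refine ⟨q', r', c1, c2, c3, ?_⟩
      have hd : q * r' = q' * r := by
        by_contra h0
        have h1 : (1 : ℝ) ≤ |((q * r' - q' * r : ℤ) : ℝ)| := by
          rw [← Int.cast_abs]; exact_mod_cast Int.one_le_abs (sub_ne_zero.2 h0)
        have h2 : ((q * r' - q' * r : ℤ) : ℝ) = q * (r' + q' * b) - q' * (r + q * b) := by
          push_cast; ring
        have d1 : (1 : ℝ) ≤ q := by exact_mod_cast b1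
        have d2 : (1 : ℝ) ≤ q' := by exact_mod_cast c1
        have d3 : (2 : ℝ) ≤ T := by exact_mod_cast (by omega : 2 ≤ T)
        have h3 := abs_sub (q * (r' + q' * b) : ℝ) (q' * (r + q * b))
        rw [abs_mul, abs_mul, abs_of_nonneg (by linarith : (0 : ℝ) ≤ q),
          abs_of_nonneg (by linarith : (0 : ℝ) ≤ q'), ← h2] at h3
        push_cast at c2 c3
        have e1 := abs_nonneg ((r' : ℝ) + q' * b)
        have e2 := abs_nonneg ((r : ℝ) + q * b)
        have e3 : q * |(r' : ℝ) + q' * b| ≤ (T + 1) * |(r' : ℝ) + q' * b| := by gcongr; linarith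
        have e4 : q' * |(r : ℝ) + q * b| ≤ 2 * T * |(r : ℝ) + q * b| := by gcongr; linarith
        linarith
      apply mul_left_cancel₀ (by omega : q ≠ 0)
      linear_combination q' * b4 - q0 * hd
  have hz := irr_pos hb (q := q0) (by omega) r0
  have d0 : (1 : ℝ) ≤ q0 := by exact_mod_cast a1
  obtain ⟨T, hT⟩ := exists_nat_ge (q0 / |r0 + q0 * b|)
  obtain ⟨q, r, b1, -, b3, b4⟩ := K (T0 + 2 + T) (by omega)
  have d1 : (1 : ℝ) ≤ q := by exact_mod_cast b1
  have e1 : q0 * |(r : ℝ) + q * b| = q * |(r0 : ℝ) + q0 * b| := by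
    have b5 : (q : ℝ) * r0 = q0 * r := by exact_mod_cast b4
    have : q0 * ((r : ℝ) + q * b) = q * ((r0 : ℝ) + q0 * b) := by linear_combination -b5
    have h2 := congrArg abs this
    rwa [abs_mul, abs_mul, abs_of_nonneg (by linarith : (0 : ℝ) ≤ q),
      abs_of_nonneg (by linarith : (0 : ℝ) ≤ q0)] at h2
  rw [div_le_iff₀ hz] at hT
  push_cast at b3
  have e2 := abs_nonneg ((r : ℝ) + q * b)
  have e3 : (0 : ℝ) ≤ T0 := by positivity
  have e4 : (0 : ℝ) ≤ T := by positivity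
  have e5 : T * |(r : ℝ) + q * b| < 1 := by nlinarith
  have e6 : T * |(r0 : ℝ) + q0 * b| ≤ T * (q0 * |(r : ℝ) + q * b|) := by
    rw [e1]; gcongr; nlinarith
  nlinarith

theorem sq_small {X T κ : ℝ} (hκ : 0 < κ) (hT : 0 < T) (h : X ^ 2 ≤ T) (h' : 1 / κ ^ 2 < T) :
    X < κ * T := by
  by_contra h1
  rw [not_lt] at h1
  rw [div_lt_iff₀ (by positivity)] at h'
  have : (κ * T) ^ 2 ≤ X ^ 2 := by gcongr
  nlinarith

theorem init {b : ℝ} (hb : Irrational b) (R : ℝ) (hR : 0 < R) {l : ℝ} (hl : 0 < l) :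
    ∃ T0 : ℝ, ∀ S : Par, S.R = R → S.b = b → T0 < S.T →
      ∀ f i c ρ, S.Ob f i c ρ → ρ * S.R ^ (i + 1) < l := by
  obtain ⟨M, hM⟩ := exists_nat_gt (1 / l)
  obtain ⟨c0, hc0, hlow⟩ := lowb hb M
  refine ⟨max (1 / (l * c0) ^ 2) (1 / l ^ 2), fun S h1 h2 hT f i c ρ ho => ?_⟩
  subst h1 h2
  have hT0 := S.T0
  have he := S.e0
  have hd := S.d0
  have heR : S.e * S.R ≤ 1 / 128 := by
    have := (mul_le_mul_of_nonneg_left (S.pw (show 1 ≤ 6 by norm_num)) he.le).trans S.eR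
    rwa [pow_one] at this
  have prim : ∀ (p g q r : ℤ) (j : ℕ), S.Pt p g q r c ρ → (g * q : ℝ) * S.R ^ (4 * j) ≤ S.T →
      i ≤ j → S.e * S.R * S.R ^ i ≤ S.T * |r + q * S.b| → ρ * S.R ^ (i + 1) < l := by
    intro p g q r j hp g1 hij g2
    have a1 : (1 : ℝ) ≤ g := by exact_mod_cast hp.hg
    have a2 : (1 : ℝ) ≤ q := by exact_mod_cast hp.hq
    have hz := irr_pos hb (q := q) (by have := hp.hq; omega) r
    have e1 : |(g * r : ℝ) + g * q * S.b| = g * |r + q * S.b| := by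
      rw [show (g * r : ℝ) + g * q * S.b = g * (r + q * S.b) by ring, abs_mul,
        abs_of_nonneg (by linarith)]
    rw [hp.hρ, e1, div_mul_eq_mul_div, div_lt_iff₀ (by positivity), pow_succ]
    set z := |(r : ℝ) + q * S.b|
    have hgg : q ≤ (g * q : ℝ) * g :=
      calc (q : ℝ) = 1 * q * 1 := by ring
        _ ≤ _ := by gcongr
    have hI : 0 < S.R ^ i := by positivity
    have fin : l * (q * (S.T * z)) ≤ l * (S.T * (g * q) * (g * z)) := by
      rw [show S.T * (g * q) * (g * z) = g * q * g * (S.T * z) by ring]; gcongr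
    by_cases hq : q ≤ M
    · have h3 := hlow q r hp.hq hq
      have h4 : (S.R ^ i) ^ 2 ≤ S.T := by
        have h5 : S.R ^ (2 * i) ≤ S.R ^ (4 * j) := S.pw (by omega)
        have h6 : 0 < S.R ^ (4 * j) := by positivity
        have h7 : (1 : ℝ) ≤ g * q := by nlinarith
        rw [← pow_mul, mul_comm]; nlinarith
      have h5 := sq_small (by positivity) hT0 h4 ((le_max_left _ _).trans_lt hT)
      have h6 : l * (1 * (S.T * c0)) ≤ l * (q * (S.T * z)) := by gcongr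
      nlinarith
    · have h3 : (M : ℝ) < q := by exact_mod_cast not_le.1 hq
      have h4 : 1 < l * q := by
        rw [div_lt_iff₀ hl] at hM; nlinarith
      have h5 : 0 < S.T * z := by positivity
      nlinarith
  rcases ho with ⟨-, p, g, q, r, hp, g1, -, g3⟩ | ⟨-, p, g, q, r, j, hp, g1, g2, g3, -⟩ |
    ⟨-, A, B, C, hA, hB, g1, -, -, hρ⟩
  · refine prim p g q r i hp g1 le_rfl (le_trans ?_ g3)
    have h1 : S.R ^ 1 ≤ S.R ^ 6 := S.pw (by norm_num)
    have hI : 0 < S.R ^ i := by positivity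
    rw [S.de]; rw [pow_one] at h1
    gcongr
    nlinarith
  · refine prim p g q r j hp g1 g2.le ?_
    have hI : 0 < S.R ^ i := by positivity
    nlinarith
  · have a1 : (1 : ℝ) ≤ |(A : ℝ)| := by rw [← Int.cast_abs]; exact_mod_cast Int.one_le_abs hA
    have a2 : (1 : ℝ) ≤ |(B : ℝ)| := by rw [← Int.cast_abs]; exact_mod_cast Int.one_le_abs hB
    have hI : 0 < S.R ^ (4 * i) := by positivity
    have d1 := S.dRk (k := 1) (by norm_num)
    have d2 := S.dRk (k := 0) (by norm_num)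
    rw [pow_one] at d1
    rw [pow_zero, mul_one] at d2
    have h4 : (S.R ^ (2 * i)) ^ 2 ≤ S.T := by
      have : 1 * 1 * S.R ^ (4 * i) ≤ |(A : ℝ)| * |(B : ℝ)| * S.R ^ (4 * i) := by gcongr
      rw [← pow_mul, show 2 * i * 2 = 4 * i by ring]; nlinarith
    have h5 := sq_small hl hT0 h4 ((le_max_right _ _).trans_lt hT)
    rw [hρ, div_mul_eq_mul_div, div_lt_iff₀ (by positivity),
      show S.d * S.R ^ i * S.R ^ (i + 1) = S.d * S.R * S.R ^ (2 * i) by ring]
    have h6 : 0 < S.R ^ (2 * i) := by positivity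
    have h7 : l * (S.T * 1) ≤ l * (S.T * |(A : ℝ)|) := by gcongr
    nlinarith

theorem Par.noSol (S : Par) {W a : ℝ} (hav : S.Av W a) (hW0 : 0 ≤ W) (hW : W * S.T ^ 2 ≤ S.e) :
    ¬ Sol a S.b S.e S.T := by
  rintro ⟨p, r, q, h1, h2, h3⟩
  have hT := S.T0
  have h4 := round_le (q * S.b) r
  have h5 : |((-round (q * S.b) : ℤ) : ℝ) + q * S.b| ≤ 1 := by
    have := abs_sub_round (q * S.b)
    push_cast
    rw [show -(round (q * S.b) : ℝ) + q * S.b = q * S.b - round (q * S.b) by ring]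
    linarith
  have h6 := S.prim_av hav p (-round (q * S.b)) q h1 h2 (le_trans (by
    rw [sq, ← mul_one (S.T * S.T)]; gcongr) hW)
  rw [lt_div_iff₀ hT] at h3
  have : S.T * |p + q * a| * |((-round (q * S.b) : ℤ) : ℝ) + q * S.b| ≤
      S.T * |p + q * a| * |r + q * S.b| := by gcongr
  linarith

end Pool.Agent.P.MP_e45b92_nt
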