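import Pool.Agent.P.MP_e45b92_nt.Init

set_option autoImplicit false

open Finset

namespace Pool.Agent.P.MP_e45b92_nt

theorem sub_iv {R n : ℕ} (hR : 0 < R) {c η : ℝ} (h : 2 * w R n ≤ η) :
    ∃ j : ℤ, ∀ a ∈ Iv R n j, |a - c| ≤ η := by
  have h0 := w_pos hR n
  refine ⟨⌊c / w R n⌋, fun a ha => ?_⟩
  have h1 := Int.floor_le (c / w R n)
  have h2 := Int.lt_floor_add_one (c / w R n)
  rw [le_div_iff₀ h0] at h1
  rw [div_lt_iff₀ h0] at h2
  obtain ⟨h3, h4⟩ := ha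
  rw [abs_le]
  constructor <;> linarith

/-- Every interval has a subinterval of comparable length on which the system is solvable. -/
theorem mwa_sub {R : ℕ} (hR : 0 < R) (β : ℝ) {k l n : ℕ} (hk : 1 ≤ k) (hl : 128 * k ^ 3 ≤ R ^ l)
    (hn : k ≤ R ^ n) (j : ℤ) : ∃ j' : ℤ, ∀ a ∈ Iv R (2 * n + l) j',
      (j * w R (2 * n) < a ∧ a < (j + 1) * w R (2 * n)) ∧
      ∃ T : ℝ, k ≤ T ∧ Sol a β (1 / k) T := by
  have hk' : (1 : ℝ) ≤ k := by exact_mod_cast hk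
  have hn' : (k : ℝ) ≤ (R : ℝ) ^ n := by exact_mod_cast hn
  have hl' : 128 * (k : ℝ) ^ 3 ≤ (R : ℝ) ^ l := by exact_mod_cast hl
  have hk3 : (1 : ℝ) ≤ (k : ℝ) ^ 3 := one_le_pow₀ hk'
  have h1 := w_add hR (2 * n) l
  have h0 := w_pos hR (2 * n + l)
  have hW : w R (2 * n) * ((R : ℝ) ^ n) ^ 2 = 1 := by
    have : (0 : ℝ) < R := by exact_mod_cast hR
    unfold w; rw [← pow_mul, mul_comm n 2]; field_simp
  have hω : 128 * (k : ℝ) ^ 3 * w R (2 * n + l) ≤ w R (2 * n) := by rw [h1]; gcongr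
  obtain ⟨p, q, q0, q1, q2⟩ := Real.exists_int_int_abs_mul_sub_le ((j + 1 / 2) * w R (2 * n))
    (n := 8 * k * R ^ n) (by positivity)
  have q1' : (q : ℝ) ≤ 8 * k * (R : ℝ) ^ n := by exact_mod_cast q1
  have q0' : (1 : ℝ) ≤ q := by exact_mod_cast q0
  push_cast at q2
  generalize (R : ℝ) ^ n = X at *
  set W := w R (2 * n)
  set ω := w R (2 * n + l)
  have hX : 0 < X := by linarith
  have hW0 : 0 < W := w_pos hR _
  have q3 : 8 * k * X * |q * ((j + 1 / 2) * W) - p| ≤ 1 := by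
    rw [le_div_iff₀ (by positivity)] at q2
    nlinarith [abs_nonneg (q * ((j + 1 / 2) * W) - p)]
  have hr : |((-round (q * β) : ℤ) : ℝ) + q * β| ≤ 1 / 2 := by
    have := abs_sub_round (q * β)
    push_cast
    rwa [show -(round (q * β) : ℝ) + q * β = q * β - round (q * β) by ring]
  have sol : ∀ a T : ℝ, 0 < T → (q : ℝ) ≤ T → k * T * |q * a - p| < 2 → Sol a β (1 / k) T := by
    intro a T hT hq h
    refine ⟨-p, -round (q * β), q, q0, hq, ?_⟩
    rw [show ((-p : ℤ) : ℝ) + q * a = q * a - p by push_cast; ring, div_div,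
      lt_div_iff₀ (by positivity)]
    have : |q * a - p| * |((-round (q * β) : ℤ) : ℝ) + q * β| * (k * T) ≤
        |q * a - p| * (1 / 2) * (k * T) := by gcongr
    linarith
  by_cases hc : X ≤ 2 * k * q
  · obtain ⟨j', hj⟩ := sub_iv hR (n := 2 * n + l) (c := p / q) le_rfl
    refine ⟨j', fun a ha => ?_⟩
    have h2 := hj a ha
    have h3 : |q * a - p| = q * |a - p / q| := by
      rw [← abs_of_pos (by linarith : (0 : ℝ) < q), ← abs_mul,
        abs_of_pos (by linarith : (0 : ℝ) < q)]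
      congr 1; field_simp
    have h4 : |q * ((j + 1 / 2) * W) - p| = q * |(j + 1 / 2) * W - p / q| := by
      rw [← abs_of_pos (by linarith : (0 : ℝ) < q), ← abs_mul,
        abs_of_pos (by linarith : (0 : ℝ) < q)]
      congr 1; field_simp
    rw [h4] at q3
    have h5 : |(j + 1 / 2) * W - p / q| ≤ W / 4 := by
      apply le_of_mul_le_mul_left _ (show 0 < 4 * X ^ 2 by positivity)
      have : X * (4 * X * |(j + 1 / 2) * W - p / q|) ≤
          2 * k * q * (4 * X * |(j + 1 / 2) * W - p / q|) := by gcongr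
      linarith
    obtain ⟨h6, h7⟩ := abs_le.1 h5
    obtain ⟨h8, h9⟩ := abs_le.1 h2
    have h10 : 128 * ω ≤ W := by nlinarith
    refine ⟨⟨by linarith, by linarith⟩, 8 * k * X, by nlinarith, sol a _ (by positivity) q1' ?_⟩
    rw [h3]
    calc k * (8 * k * X) * (q * |a - p / q|) ≤ k * (8 * k * X) * (8 * k * X * (2 * ω)) := by gcongr
      _ = 128 * k ^ 3 * ω * X ^ 2 := by ring
      _ ≤ W * X ^ 2 := by gcongr
      _ < 2 := by linarith
  · rw [not_le] at hc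
    have h10 : 128 * ω ≤ W := by nlinarith
    obtain ⟨j', hj⟩ := sub_iv hR (n := 2 * n + l) (c := (j + 1 / 2) * W) le_rfl
    refine ⟨j', fun a ha => ?_⟩
    have h2 := hj a ha
    obtain ⟨h8, h9⟩ := abs_le.1 h2
    refine ⟨⟨by linarith, by linarith⟩, X, hn', sol a _ hX (by nlinarith) ?_⟩
    have h3 : |q * a - p| ≤ |q * ((j + 1 / 2) * W) - p| + q * W := by
      rw [show q * a - p = q * ((j + 1 / 2) * W) - p + q * (a - (j + 1 / 2) * W) by ring]
      refine (abs_add_le _ _).trans ?_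
      rw [abs_mul (q : ℝ), abs_of_pos (by linarith : (0 : ℝ) < q)]
      gcongr; linarith
    have h4 : k * X * (q * W) ≤ 1 / 2 := by
      have : 2 * k * q * (X * W) ≤ X * (X * W) := by gcongr
      linarith
    have h5 : k * X * |q * a - p| ≤ k * X * (|q * ((j + 1 / 2) * W) - p| + q * W) := by gcongr
    linarith

variable {G : ℕ} (C : Cov G)

def Inv (n : ℕ) (s : Finset ℤ) : Prop :=
  C.u n ≤ s.card ∧ ∀ j ∈ s, ∀ a ∈ Iv (G + 15) n j, C.Av n a

theorem Cov.pow_le (n t : ℕ) : C.u (n + t) ≤ G ^ t * C.u n := by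
  induction t with
  | zero => simp
  | succ t ih =>
    calc C.u (n + t + 1) ≤ G * C.u (n + t) := C.hu _
      _ ≤ G * (G ^ t * C.u n) := by gcongr
      _ = _ := by ring

theorem grow (hG : 1 ≤ G) (K : ℕ) : ∃ t0, ∀ t, t0 ≤ t → K * G ^ t ≤ (G + 1) ^ t := by
  have h : ∀ t, G ^ t * (G + t) ≤ (G + 1) ^ t * G := by
    intro t
    induction t with
    | zero => simp
    | succ t ih =>
      calc G ^ (t + 1) * (G + (t + 1)) = G ^ t * (G * (G + t + 1)) := by ring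
        _ ≤ G ^ t * ((G + 1) * (G + t)) := Nat.mul_le_mul_left _ (by nlinarith)
        _ = (G + 1) * (G ^ t * (G + t)) := by ring
        _ ≤ (G + 1) * ((G + 1) ^ t * G) := by gcongr
        _ = _ := by ring
  refine ⟨K * G, fun t ht => Nat.le_of_mul_le_mul_right ?_ hG⟩
  calc K * G ^ t * G = G ^ t * (K * G) := by ring
    _ ≤ G ^ t * (G + t) := by gcongr; omega
    _ ≤ _ := h t

noncomputable def eps (G : ℕ) : ℝ := 1 / (128 * ((G + 15 : ℕ) : ℝ) ^ 12)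

theorem stageA (hG : 49 ≤ G) {β : ℝ} (hβ : Irrational β) {n : ℕ} {s : Finset ℤ} (h : Inv C n s)
    (k K N : ℕ) : ∃ (n' : ℕ) (s' : Finset ℤ), N ≤ n' ∧ K * C.u (2 * n') ≤ s'.card ∧ ∀ j ∈ s',
      ∀ a ∈ Iv (G + 15) (2 * n') j, C.Av (2 * n') a ∧ (∃ j0 ∈ s, a ∈ Iv (G + 15) n j0) ∧
        ∃ T : ℝ, k ≤ T ∧ ¬ Sol a β (eps G) T := by
  have hp : 0 < G + 15 := by omega
  have hR : (64 : ℝ) ≤ (G + 15 : ℕ) := by exact_mod_cast (by omega : 64 ≤ G + 15)
  obtain ⟨T0, hT0⟩ := init hβ (G + 15 : ℕ) (by linarith) (w_pos hp n)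
  obtain ⟨T1, hT1⟩ := exists_nat_gt T0
  obtain ⟨T, a1, a2, a3⟩ := exists_T hβ (T1 + k)
  let S : Par := ⟨(G + 15 : ℕ), T, β, hR, by exact_mod_cast a2, a3⟩
  have hinit := hT0 S rfl rfl (hT1.trans_le (by
    show (T1 : ℝ) ≤ T
    exact_mod_cast (by omega : T1 ≤ T)))
  obtain ⟨t0, ht0⟩ := grow (by omega : 1 ≤ G) K
  obtain ⟨m, hm⟩ := pow_unbounded_of_one_lt (S.T ^ 2 / S.e) (show 1 < S.R by linarith [S.hR])
  set t := n + 2 * (N + t0 + m) with ht
  obtain ⟨-, -, c3⟩ := St_card C S n s rfl hG hinit h.2 h.1 t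
  have e : 2 * (n + (N + t0 + m)) = n + t := by omega
  refine ⟨n + (N + t0 + m), St C S n s t, by omega, ?_, fun j hj a ha => ?_⟩
  · calc K * C.u (2 * (n + (N + t0 + m))) ≤ K * (G ^ t * C.u n) := by
          rw [e]; gcongr; exact C.pow_le n t
      _ = K * G ^ t * C.u n := by ring
      _ ≤ (G + 1) ^ t * s.card := Nat.mul_le_mul (ht0 t (by omega)) h.1
      _ ≤ _ := c3
  · rw [e] at ha ⊢
    obtain ⟨g1, g2⟩ := St_good C S n s hinit h.2 t j hj a ha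
    obtain ⟨j0, b1, b2⟩ := St_ref C S n s 0 t j (by rwa [zero_add])
    rw [zero_add] at b2
    refine ⟨g2, ⟨j0, b1, b2 ha⟩, T, by exact_mod_cast (by omega : k ≤ T),
      S.noSol g1 (w_pos hp _).le ?_⟩
    have h1 := w_anti hp (show m ≤ n + t by omega)
    have h2 : w (G + 15) m * S.T ^ 2 ≤ S.e := by
      rw [div_lt_iff₀ S.e0] at hm
      rw [w, inv_mul_le_iff₀ (by positivity)]
      exact hm.le
    exact le_trans (by gcongr) h2

theorem prune {n : ℕ} {s : Finset ℤ} (hG : 1 ≤ G)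
    (h : ∀ j ∈ s, ∀ a ∈ Iv (G + 15) n j, C.Av n a) (l : ℕ) :
    ∃ s' ⊆ s, s.card ≤ s'.card + l * (6 * G ^ l * C.u n) ∧
      ∀ j ∈ s', ∀ a ∈ Iv (G + 15) n j, C.Av (n + l) a := by
  classical
  have hp : 0 < G + 15 := by omega
  induction l with
  | zero => exact ⟨s, subset_rfl, by simp, h⟩
  | succ l ih =>
    obtain ⟨s1, h1, h2, h3⟩ := ih
    obtain ⟨F, hF, hFc⟩ := C.hF (n + l)
    set B := F.biUnion fun i => hit (w (G + 15) n) (C.x i) 1 with hB
    have cB : B.card ≤ 2 * C.u (n + l) * 3 :=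
      (card_biUnion_le_card_mul _ _ 3 fun p _ => (card_hit _ _ _).le).trans
        (Nat.mul_le_mul_right _ hFc)
    refine ⟨s1 \ B, sdiff_subset.trans h1, ?_, fun j hj a ha i hi => ?_⟩
    · have h4 := le_card_sdiff B s1
      have h5 := C.pow_le n l
      have h6 : G ^ l * C.u n ≤ G ^ (l + 1) * C.u n :=
        Nat.mul_le_mul_right _ (Nat.pow_le_pow_right hG (by omega))
      have h7 : l * (6 * G ^ l * C.u n) ≤ l * (6 * G ^ (l + 1) * C.u n) := by
        rw [mul_assoc 6, mul_assoc 6]; gcongr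
      have h8 : (l + 1) * (6 * G ^ (l + 1) * C.u n) =
          l * (6 * G ^ (l + 1) * C.u n) + 6 * (G ^ (l + 1) * C.u n) := by ring
      omega
    · obtain ⟨j1, j2⟩ := mem_sdiff.1 hj
      by_cases hi' : C.lev i ≤ n + l
      · exact h3 j j1 a ha i hi'
      · by_contra hc
        refine j2 (mem_biUnion.2 ⟨i, hF i (by omega), mem_hit hp ha ?_⟩)
        have := w_anti hp (show n ≤ C.lev i by omega)
        simp only [Nat.cast_one, one_mul]
        linarith [not_le.1 hc]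

/-- What stage `k` gives for a point `a`. -/
def Qk (G : ℕ) (β : ℝ) (k : ℕ) (a : ℝ) : Prop :=
  (∃ T : ℝ, k ≤ T ∧ ¬ Sol a β (eps G) T) ∧ ∃ T : ℝ, (k + 1 : ℕ) ≤ T ∧ Sol a β (1 / (k + 1 : ℕ)) T

theorem step (hG : 49 ≤ G) {β : ℝ} (hβ : Irrational β) (k n : ℕ) (s : Finset ℤ) (h : Inv C n s) :
    ∃ n' s', Inv C n' s' ∧ k ≤ n' ∧ ∀ j ∈ s', ∀ a ∈ Iv (G + 15) n' j,
      (∃ j0 ∈ s, a ∈ Iv (G + 15) n j0) ∧ Qk G β k a := by
  classical
  have hp : 0 < G + 15 := by omega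
  set l := 128 * (k + 1) ^ 3 with hl
  obtain ⟨n1, s1, a1, a2, a3⟩ := stageA C hG hβ h k ((6 * l + 1) * G ^ l) (k + 1)
  obtain ⟨s2, b1, b2, b3⟩ := prune C (by omega) (fun j hj a ha => (a3 j hj a ha).1) l
  choose φ hφ using mwa_sub hp β (k := k + 1) (l := l) (n := n1) (by omega)
    (Nat.lt_pow_self (by omega)).le (a1.trans (Nat.lt_pow_self (by omega)).le)
  have hinj : Function.Injective φ := by
    intro j j' e
    have h0 := w_pos hp (2 * n1)
    have h1 := (hφ j _ (left_mem hp _ _)).1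
    have h2 := (hφ j' _ (left_mem hp _ _)).1
    rw [← e] at h2
    have h3 : (j : ℝ) < j' + 1 := lt_of_mul_lt_mul_right (h1.1.trans h2.2) h0.le
    have h4 : (j' : ℝ) < j + 1 := lt_of_mul_lt_mul_right (h2.1.trans h1.2) h0.le
    have h5 : j < j' + 1 := by exact_mod_cast h3
    have h6 : j' < j + 1 := by exact_mod_cast h4
    omega
  have mem : ∀ j a, a ∈ Iv (G + 15) (2 * n1 + l) (φ j) → a ∈ Iv (G + 15) (2 * n1) j :=
    fun j a ha => ⟨(hφ j a ha).1.1.le, (hφ j a ha).1.2.le⟩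
  refine ⟨2 * n1 + l, s2.image φ, ⟨?_, fun j hj a ha => ?_⟩, by omega, fun j hj a ha => ?_⟩
  · rw [card_image_of_injective _ hinj]
    have := C.pow_le (2 * n1) l
    have e : (6 * l + 1) * G ^ l * C.u (2 * n1) =
        l * (6 * G ^ l * C.u (2 * n1)) + G ^ l * C.u (2 * n1) := by ring
    omega
  · obtain ⟨j0, h1, rfl⟩ := mem_image.1 hj
    exact b3 j0 h1 a (mem j0 a ha)
  · obtain ⟨j0, h1, rfl⟩ := mem_image.1 hj
    obtain ⟨-, c2, c3⟩ := a3 j0 (b1 h1) a (mem j0 a ha)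
    exact ⟨c2, c3, (hφ j0 a ha).2⟩

theorem exists_point (hG : 49 ≤ G) {β : ℝ} (hβ : Irrational β) {n0 : ℕ} {s0 : Finset ℤ}
    (h : Inv C n0 s0) : ∃ a, (∃ j ∈ s0, a ∈ Iv (G + 15) n0 j) ∧ (∀ k, Qk G β k a) ∧
      ∀ i, w (G + 15) (C.lev i) ≤ |a - C.x i| := by
  choose! fn fs hf using step C hG hβ
  obtain ⟨n, s, e0, e1, e2, e3⟩ : ∃ (n : ℕ → ℕ) (s : ℕ → Finset ℤ), n 0 = n0 ∧ s 0 = s0 ∧
      (∀ k, n (k + 1) = fn k (n k) (s k)) ∧ ∀ k, s (k + 1) = fs k (n k) (s k) := by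
    let st : ℕ → ℕ × Finset ℤ := fun k =>
      Nat.rec (n0, s0) (fun k p => (fn k p.1 p.2, fs k p.1 p.2)) k
    exact ⟨fun k => (st k).1, fun k => (st k).2, rfl, rfl, fun _ => rfl, fun _ => rfl⟩
  have hst : ∀ k, Inv C (n k) (s k) := by
    intro k
    induction k with
    | zero => rwa [e0, e1]
    | succ k ih => rw [e2, e3]; exact (hf k _ _ ih).1
  have hf' := fun k => (hf k _ _ (hst k)).2
  simp only [← e2, ← e3] at hf'
  obtain ⟨K, hK, hc⟩ : ∃ K : ℕ → Set ℝ, (∀ k a, a ∈ K k ↔ ∃ j ∈ s k, a ∈ Iv (G + 15) (n k) j) ∧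
      ∀ k, IsCompact (K k) :=
    ⟨fun k => ⋃ j ∈ s k, Iv (G + 15) (n k) j, fun k a => by simp,
      fun k => (s k).isCompact_biUnion fun j _ => isCompact_Icc⟩
  obtain ⟨a, ha⟩ := IsCompact.nonempty_iInter_of_sequence_nonempty_isCompact_isClosed K
    (fun k a ha => by
      obtain ⟨j, h1, h2⟩ := (hK _ a).1 ha
      exact (hK k a).2 ((hf' k).2 j h1 a h2).1)
    (fun k => by
      obtain ⟨j, hj⟩ := card_pos.1 ((C.hu1 _).trans (hst k).1)
      exact ⟨_, (hK k _).2 ⟨j, hj, left_mem (by omega) _ _⟩⟩)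
    (hc 0) fun k => (hc k).isClosed
  rw [Set.mem_iInter] at ha
  refine ⟨a, by simpa only [e0, e1] using (hK 0 a).1 (ha 0), fun k => ?_, fun i => ?_⟩
  · obtain ⟨j, h1, h2⟩ := (hK _ a).1 (ha (k + 1))
    exact ((hf' k).2 j h1 a h2).2
  · obtain ⟨j, h1, h2⟩ := (hK _ a).1 (ha (C.lev i + 1))
    exact (hst _).2 j h1 a h2 i (hf' _).1

end Pool.Agent.P.MP_e45b92_nt
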