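import Mathlib

set_option autoImplicit false

namespace Pool.Agent.P.MP_e45b92_nt.Ul

/-- A constraint `s (i x + j y - n) (i d + j (d + e)) ≥ 1`. -/
structure Con where
  s : ℤ
  i : ℕ
  j : ℕ
  n : ℕ

/-- Branch trees. -/
inductive Tr where
  | L (k1 m1 u1 k2 m2 u2 k3 m3 u3 k4 m4 u4 : ℕ) : Tr
  | B (i j n : ℕ) (a b : Tr) : Tr
  | W (m : ℕ) (a b : Tr) : Tr
  | S (m : ℕ) (a b : Tr) : Tr

def Z : ℤ := 281474976710656

def c0 : Con := ⟨1, 1, 0, 0⟩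

def f1 (c : Con) (m : ℕ) : ℤ := m * c.s * c.i
def f2 (c : Con) (m : ℕ) : ℤ := m * c.s * c.j
def fA (c : Con) (m u : ℕ) : ℤ := m * u * u * (c.i + c.j)
def fB (c : Con) (m u : ℕ) : ℤ := m * u * u * c.j
def fC (c : Con) (m u : ℕ) : ℤ := m * (2 * u * Z + c.s * c.n * (Z * Z))

def fin (r1 r2 A B C W1 S1 : ℤ) : Bool :=
  decide (0 < S1) &&
    (decide (A * 1000000 * Z < (C - (max r1 0 + max r2 0) * (Z * Z)) * 381983 * S1) &&
      decide (B * 1000000 * Z * Z ≤ (C - (max r1 0 + max r2 0) * (Z * Z)) * W1 * 381983 * S1))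

def leaf (a b c d : Con) (m1 u1 m2 u2 m3 u3 m4 u4 : ℕ) (W1 S1 : ℤ) : Bool :=
  fin (f1 a m1 + f1 b m2 + f1 c m3 + f1 d m4) (f2 a m1 + f2 b m2 + f2 c m3 + f2 d m4)
    (fA a m1 u1 + fA b m2 u2 + fA c m3 u3 + fA d m4 u4)
    (fB a m1 u1 + fB b m2 u2 + fB c m3 u3 + fB d m4 u4)
    (fC a m1 u1 + fC b m2 u2 + fC c m3 u3 + fC d m4 u4) W1 S1

def strip (i j : ℕ) (W1 W2 S2 : ℤ) : Bool :=
  decide (0 < i + j) && (decide (i + j ≤ 10000) && (decide (i ≤ 1 ∧ j ≤ 1) ||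
    (decide (S2 * ((i + j) * W2 - j * Z) ≤ Z * Z) && decide (S2 * (j * Z - (i + j) * W1) ≤ Z * Z))))

def chk : Tr → List Con → ℤ → ℤ → ℤ → ℤ → Bool
  | .L k1 m1 u1 k2 m2 u2 k3 m3 u3 k4 m4 u4, p, W1, _, S1, _ =>
      leaf (p.getD k1 c0) (p.getD k2 c0) (p.getD k3 c0) (p.getD k4 c0) m1 u1 m2 u2 m3 u3 m4 u4 W1 S1
  | .B i j n a b, p, W1, W2, S1, S2 =>
      strip i j W1 W2 S2 && (chk a (⟨1, i, j, n⟩ :: p) W1 W2 S1 S2 &&
        chk b (⟨-1, i, j, n⟩ :: p) W1 W2 S1 S2)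
  | .W m a b, p, W1, W2, S1, S2 => chk a p W1 m S1 S2 && chk b p m W2 S1 S2
  | .S m a b, p, W1, W2, S1, S2 => chk a p W1 W2 S1 m && chk b p W1 W2 m S2

/-- The data of the model. -/
structure Mod where
  w : ℝ
  s : ℝ
  d : ℝ
  e : ℝ
  x : ℝ
  y : ℝ
  w0 : 0 ≤ w
  w1 : w ≤ 1
  s0 : 0 < s
  la : s * w ≤ 1
  lb : s * (1 - w) ≤ 1
  d0 : 0 < d
  e0 : 0 ≤ e
  D : s * (d + w * e) * 381983 ≤ 1000000
  x0 : 0 ≤ x
  y0 : 0 ≤ y
  xy : x + y ≤ 1
  H : ∀ i j : ℕ, 0 < i + j → i + j ≤ 10000 → |s * (((i : ℝ) + j) * w - j)| ≤ 1 → ∀ n : ℤ,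
    1 ≤ (((i : ℝ) + j) * d + j * e) * |i * x + j * y - n|

def Ok (M : Mod) (c : Con) : Prop :=
  0 < c.i + c.j ∧ 1 ≤ (((c.i : ℝ) + c.j) * M.d + c.j * M.e) * (c.s * (c.i * M.x + c.j * M.y - c.n))

lemma Z_pos : (0 : ℝ) < (Z : ℝ) := by unfold Z; norm_num

lemma term (M : Mod) {c : Con} (h : Ok M c) (m u : ℕ) :
    (fC c m u : ℝ) ≤ (Z * Z) * ((f1 c m : ℝ) * M.x + (f2 c m : ℝ) * M.y) + (fA c m u : ℝ) * M.d
      + (fB c m u : ℝ) * M.e := by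
  obtain ⟨h0, h⟩ := h
  have hn : (1 : ℝ) ≤ (c.i : ℝ) + c.j := by exact_mod_cast h0
  have hj : (0 : ℝ) ≤ c.j := by positivity
  set G := ((c.i : ℝ) + c.j) * M.d + c.j * M.e with hG
  have hG0 : 0 < G := by
    have := mul_nonneg hj M.e0
    have := mul_pos (lt_of_lt_of_le one_pos hn) M.d0
    linarith
  set X := (c.s : ℝ) * (c.i * M.x + c.j * M.y - c.n) with hX
  have key : 2 * (u : ℝ) * Z - u * u * G ≤ Z * Z * X := by
    refine le_of_mul_le_mul_left ?_ hG0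
    have h1 : (Z : ℝ) * Z * 1 ≤ Z * Z * (G * X) :=
      mul_le_mul_of_nonneg_left h (mul_self_nonneg _)
    nlinarith [sq_nonneg ((Z : ℝ) - u * G)]
  have hm : (0 : ℝ) ≤ m := by positivity
  have := mul_le_mul_of_nonneg_left key hm
  simp only [fC, f1, f2, fA, fB]
  push_cast
  rw [hG, hX] at this
  linarith

lemma fin_false (M : Mod) {r1 r2 A B C W1 S1 : ℤ} (h : fin r1 r2 A B C W1 S1 = true)
    (hA : 0 ≤ A) (hW : (W1 : ℝ) ≤ M.w * Z) (hS : (S1 : ℝ) ≤ M.s * Z)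
    (hh : (C : ℝ) ≤ (Z * Z) * ((r1 : ℝ) * M.x + (r2 : ℝ) * M.y) + (A : ℝ) * M.d + (B : ℝ) * M.e) :
    False := by
  simp only [fin, Bool.and_eq_true, decide_eq_true_eq] at h
  obtain ⟨h0, h1, h2⟩ := h
  obtain ⟨C', hC'⟩ : ∃ C' : ℤ, C' = C - (max r1 0 + max r2 0) * (Z * Z) := ⟨_, rfl⟩
  rw [← hC'] at h1 h2
  have hZ := Z_pos
  have a1 : (r1 : ℝ) * M.x ≤ ((max r1 0 : ℤ) : ℝ) := by
    have h3 : (r1 : ℝ) ≤ ((max r1 0 : ℤ) : ℝ) := by exact_mod_cast le_max_left _ _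
    have h4 : (0 : ℝ) ≤ ((max r1 0 : ℤ) : ℝ) := by exact_mod_cast le_max_right _ _
    nlinarith [M.x0, M.y0, M.xy]
  have a2 : (r2 : ℝ) * M.y ≤ ((max r2 0 : ℤ) : ℝ) := by
    have h3 : (r2 : ℝ) ≤ ((max r2 0 : ℤ) : ℝ) := by exact_mod_cast le_max_left _ _
    have h4 : (0 : ℝ) ≤ ((max r2 0 : ℤ) : ℝ) := by exact_mod_cast le_max_right _ _
    nlinarith [M.x0, M.y0, M.xy]
  have a3 : (C' : ℝ) ≤ (A : ℝ) * M.d + (B : ℝ) * M.e := by
    have : (C' : ℝ) = C - (((max r1 0 : ℤ) : ℝ) + ((max r2 0 : ℤ) : ℝ)) * (Z * Z) := by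
      rw [hC']; push_cast; ring
    rw [this]
    nlinarith [mul_pos hZ hZ]
  have b0 : (0 : ℝ) < S1 := by exact_mod_cast h0
  have b1 : (A : ℝ) * 1000000 * Z < C' * 381983 * S1 := by exact_mod_cast h1
  have b2 : (B : ℝ) * 1000000 * Z * Z ≤ C' * W1 * 381983 * S1 := by exact_mod_cast h2
  have bA : (0 : ℝ) ≤ A := by exact_mod_cast hA
  have c0 : (0 : ℝ) < C' := by
    by_contra hc
    have h5 : (C' : ℝ) * 381983 * S1 ≤ 0 :=
      mul_nonpos_of_nonpos_of_nonneg (by linarith) b0.le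
    have h6 : 0 ≤ (A : ℝ) * 1000000 * Z := by positivity
    linarith
  have b3 : (B : ℝ) * 1000000 * Z ≤ C' * M.w * 381983 * S1 := by
    refine le_of_mul_le_mul_right (b2.trans ?_) hZ
    have := mul_le_mul_of_nonneg_left hW (show 0 ≤ (C' : ℝ) * 381983 * S1 by positivity)
    linarith
  have b4 : (0 : ℝ) ≤ M.d + M.w * M.e := by
    have := mul_nonneg M.w0 M.e0
    linarith [M.d0]
  have b5 : (S1 : ℝ) * (M.d + M.w * M.e) * 381983 ≤ 1000000 * Z := by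
    have h7 := mul_le_mul_of_nonneg_right hS b4
    have h8 := mul_le_mul_of_nonneg_right M.D hZ.le
    nlinarith
  have e1 := mul_lt_mul_of_pos_right b1 M.d0
  have e2 := mul_le_mul_of_nonneg_right b3 M.e0
  have e3 := mul_le_mul_of_nonneg_left b5 c0.le
  have e4 := mul_le_mul_of_nonneg_right a3 (show (0 : ℝ) ≤ 1000000 * Z by positivity)
  nlinarith

lemma strip_ok (M : Mod) {i j : ℕ} {W1 W2 S2 : ℤ} (h : strip i j W1 W2 S2 = true)
    (h1 : (W1 : ℝ) ≤ M.w * Z) (h2 : M.w * Z ≤ W2) (h3 : M.s * Z ≤ S2) :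
    0 < i + j ∧ i + j ≤ 10000 ∧ |M.s * (((i : ℝ) + j) * M.w - j)| ≤ 1 := by
  simp only [strip, Bool.and_eq_true, Bool.or_eq_true, decide_eq_true_eq] at h
  obtain ⟨a, b, c⟩ := h
  refine ⟨a, b, ?_⟩
  have hZ := Z_pos
  have p1 := mul_nonneg M.s0.le M.w0
  have p2 := mul_nonneg M.s0.le (sub_nonneg.2 M.w1)
  rcases c with ⟨c1, c2⟩ | ⟨c1, c2⟩
  · rw [abs_le]
    have := M.la
    have := M.lb
    interval_cases i <;> interval_cases j <;> constructor <;> push_cast <;> nlinarith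
  · have d1 : (S2 : ℝ) * (((i : ℝ) + j) * W2 - j * Z) ≤ Z * Z := by exact_mod_cast c1
    have d2 : (S2 : ℝ) * (j * Z - ((i : ℝ) + j) * W1) ≤ Z * Z := by exact_mod_cast c2
    have hn : (0 : ℝ) ≤ (i : ℝ) + j := by positivity
    have hsZ : 0 < M.s * Z := mul_pos M.s0 hZ
    have gen : ∀ t t' : ℝ, t * Z ≤ t' → (S2 : ℝ) * t' ≤ Z * Z → M.s * t ≤ 1 := by
      intro t t' e1 e2
      rcases le_total t 0 with ht | ht
      · nlinarith [M.s0]
      · have e3 : 0 ≤ t * Z := by positivity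
        have e4 : M.s * Z * (t * Z) ≤ S2 * t' := mul_le_mul h3 e1 e3 (by linarith)
        refine le_of_mul_le_mul_right ?_ (mul_pos hZ hZ)
        linarith
    rw [abs_le]
    constructor
    · have := gen (j - ((i : ℝ) + j) * M.w) _ (by nlinarith) d2
      linarith
    · exact gen _ _ (by nlinarith) d1

lemma sound (M : Mod) (h0 : Ok M c0) : ∀ (t : Tr) (p : List Con) (W1 W2 S1 S2 : ℤ),
    chk t p W1 W2 S1 S2 = true → (∀ c ∈ p, Ok M c) → (W1 : ℝ) ≤ M.w * Z → M.w * Z ≤ W2 →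
    (S1 : ℝ) ≤ M.s * Z → M.s * Z ≤ S2 → False := by
  intro t
  induction t with
  | L k1 m1 u1 k2 m2 u2 k3 m3 u3 k4 m4 u4 =>
    intro p W1 W2 S1 S2 h hp a1 _ a3 _
    have g : ∀ k, Ok M (p.getD k c0) := by
      intro k
      rw [List.getD_eq_getElem?_getD]
      rcases hk : p[k]? with _ | c
      · exact h0
      · exact hp c (List.mem_of_getElem? hk)
    refine fin_false M h ?_ a1 a3 ?_
    · simp only [fA]; positivity
    · have t1 := term M (g k1) m1 u1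
      have t2 := term M (g k2) m2 u2
      have t3 := term M (g k3) m3 u3
      have t4 := term M (g k4) m4 u4
      push_cast
      linarith
  | B i j n a b iha ihb =>
    intro p W1 W2 S1 S2 h hp a1 a2 a3 a4
    simp only [chk, Bool.and_eq_true] at h
    obtain ⟨s1, s2, s3⟩ := strip_ok M h.1 a1 a2 a4
    have hH := M.H i j s1 s2 s3 n
    rcases le_total 0 ((i : ℝ) * M.x + j * M.y - ((n : ℤ) : ℝ)) with hs | hs
    · rw [abs_of_nonneg hs] at hH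
      refine iha _ _ _ _ _ h.2.1 ?_ a1 a2 a3 a4
      intro c hc
      rcases List.mem_cons.1 hc with rfl | hc
      · refine ⟨s1, ?_⟩
        simpa using hH
      · exact hp c hc
    · rw [abs_of_nonpos hs] at hH
      refine ihb _ _ _ _ _ h.2.2 ?_ a1 a2 a3 a4
      intro c hc
      rcases List.mem_cons.1 hc with rfl | hc
      · refine ⟨s1, ?_⟩
        simpa using hH
      · exact hp c hc
  | W m a b iha ihb =>
    intro p W1 W2 S1 S2 h hp a1 a2 a3 a4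
    simp only [chk, Bool.and_eq_true] at h
    rcases le_total (M.w * Z) ((m : ℤ) : ℝ) with hs | hs
    · exact iha _ _ _ _ _ h.1 hp a1 hs a3 a4
    · exact ihb _ _ _ _ _ h.2 hp hs a2 a3 a4
  | S m a b iha ihb =>
    intro p W1 W2 S1 S2 h hp a1 a2 a3 a4
    simp only [chk, Bool.and_eq_true] at h
    rcases le_total (M.s * Z) ((m : ℤ) : ℝ) with hs | hs
    · exact iha _ _ _ _ _ h.1 hp a1 a2 a3 hs
    · exact ihb _ _ _ _ _ h.2 hp a1 a2 hs a4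

end Pool.Agent.P.MP_e45b92_nt.Ul
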