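import Pool.Agent.P.MP_e45b92_nt.UlEnd

set_option autoImplicit false

namespace Pool.Agent.P.MP_e45b92_nt.Ul

/-- The limit slope `[0; 4, 1, 5, 1, 1, 1, ...]`. -/
noncomputable def th : ℝ := (279 - √5) / 1342

lemma th_near {N g : ℤ} (hN : 10 ^ 15 ≤ N) (hg : 10000 * g ≤ 2064 * N)
    (hf : -29 * N ^ 2 + 279 * N * g - 671 * g ^ 2 = 671) :
    0 ≤ (g : ℝ) / N - th ∧ (g : ℝ) / N - th ≤ 1 / N := by
  have n0 : (10 ^ 15 : ℝ) ≤ N := by exact_mod_cast hN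
  have n1 : (0 : ℝ) < N := by linarith [show (0 : ℝ) < 10 ^ 15 by positivity]
  have g1 : (g : ℝ) / N ≤ 0.2064 := by
    have : (10000 : ℝ) * g ≤ 2064 * N := by exact_mod_cast hg
    rw [div_le_iff₀ n1]; linarith
  have s2 : (2.2 : ℝ) ≤ √5 := Real.le_sqrt_of_sq_le (by norm_num)
  have s5 : √5 * √5 = (5 : ℝ) := Real.mul_self_sqrt (by norm_num)
  have f : -29 * (N : ℝ) ^ 2 + 279 * N * g - 671 * g ^ 2 = 671 := by exact_mod_cast hf
  have e : ((g : ℝ) / N - th) * ((279 + √5) / 1342 - g / N) = (1 / N) * (1 / N) := by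
    unfold th
    field_simp
    linear_combination 2684 * f + (N : ℝ) ^ 2 * s5
  have p : (0.003 : ℝ) ≤ (279 + √5) / 1342 - g / N := by linarith
  have q0 : (0 : ℝ) < 1 / N := by positivity
  have q1 : 1 / (N : ℝ) ≤ 0.003 := by
    rw [div_le_iff₀ n1]; linarith
  have h0 : 0 ≤ (g : ℝ) / N - th := by
    by_contra hc
    nlinarith [mul_pos q0 q0]
  exact ⟨h0, by nlinarith⟩

lemma th_bd : 206232438168778 / 10 ^ 15 ≤ th ∧ th ≤ 206232438168779 / 10 ^ 15 := by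
  have a : √5 ≤ 279 - 1342 * (206232438168778 / 10 ^ 15 : ℝ) :=
    Real.sqrt_le_iff.2 ⟨by norm_num, by norm_num⟩
  have b : 279 - 1342 * (206232438168779 / 10 ^ 15 : ℝ) ≤ √5 :=
    Real.le_sqrt_of_sq_le (by norm_num)
  unfold th
  constructor <;> linarith

lemma th_irr : Irrational th := by
  have i5 : Irrational (√((5 : ℕ) : ℝ)) := Nat.Prime.irrational_sqrt (by norm_num)
  rintro ⟨r, hr⟩
  refine i5 ⟨279 - 1342 * r, ?_⟩
  unfold th at hr
  push_cast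
  linarith

lemma end_case {N g k k' l C i q : ℤ} (hN : 10 ^ 15 ≤ N) (hg : 10000 * g ≤ 2064 * N)
    (hf : -29 * N ^ 2 + 279 * N * g - 671 * g ^ 2 = 671) (hk : |k'| = |g * k - l * N|)
    (c1 : 10999999983 / 17000000000 ≤ (C : ℝ) / N) (c2 : (C : ℝ) / N ≤ 11 / 17)
    (hq : q = k * C - i * N) (q1 : 1 ≤ q) (q2 : q ≤ N - 1) (h1 : |k| ≤ 500) :
    0.38198282 * (N : ℝ) ≤ |k + 33.9696745 * ((q : ℝ) / N)| * |k' + 33.9696745 * ((q : ℝ) / N)| := by
  have n0 : (10 ^ 15 : ℝ) ≤ N := by exact_mod_cast hN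
  have n1 : (0 : ℝ) < N := by linarith [show (0 : ℝ) < 10 ^ 15 by positivity]
  have u1 : (1 : ℝ) ≤ q := by exact_mod_cast q1
  have u2 : (q : ℝ) ≤ N - 1 := by exact_mod_cast q2
  have t0 : 0 < (q : ℝ) / N := by positivity
  have t1 : (q : ℝ) / N < 1 := (div_lt_one n1).2 (by linarith)
  obtain ⟨b1, b2⟩ := th_near hN hg hf
  obtain ⟨b3, b4⟩ := th_bd
  have b5 : 1 / (N : ℝ) ≤ 1 / 10 ^ 15 := one_div_le_one_div_of_le (by positivity) n0
  have E := endl (ϑ := (g : ℝ) / N) (t := (q : ℝ) / N) h1 c1 c2 (by linarith) (by linarith) i l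
    (by rw [hq]; push_cast; field_simp) t0 t1
  have e1 : |(k' : ℝ)| = N * |k * ((g : ℝ) / N) - l| := by
    have : |(k' : ℝ)| = |(g : ℝ) * k - l * N| := by exact_mod_cast hk
    rw [this, show (g : ℝ) * k - l * N = N * (k * ((g : ℝ) / N) - l) by field_simp, abs_mul,
      abs_of_pos n1]
  have x0 : |(k : ℝ)| ≤ 500 := by exact_mod_cast h1
  generalize (q : ℝ) / N = t at *
  have e2 : |k + 33.9696745 * t| ≤ 534 := by
    rw [abs_le] at x0 ⊢
    constructor <;> linarith [x0.1, x0.2]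
  have e3 : |(k' : ℝ)| - 34 ≤ |k' + 33.9696745 * t| := by
    have := abs_add_le ((k' : ℝ) + 33.9696745 * t) (-(33.9696745 * t))
    rw [abs_neg, abs_of_pos (show 0 < 33.9696745 * t by positivity), add_neg_cancel_right] at this
    linarith
  have e4 := mul_le_mul_of_nonneg_left e3 (abs_nonneg (k + 33.9696745 * t))
  have e5 := mul_le_mul_of_nonneg_left E n1.le
  rw [e1] at e4
  nlinarith

lemma core {N g N' a A B : ℤ} (hN : 10 ^ 15 ≤ N) (hg : 10000 * g ≤ 2064 * N)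
    (hf : -29 * N ^ 2 + 279 * N * g - 671 * g ^ 2 = 671) (hN' : N * N' = g ^ 2 + 1)
    (hA : N ∣ a * A - 1) (hB : N ∣ g * a * B - 1)
    (a1 : 10999999983 / 17000000000 ≤ (A : ℝ) / N) (a2 : (A : ℝ) / N ≤ 11 / 17)
    (b1 : 10999999983 / 17000000000 ≤ (B : ℝ) / N) (b2 : (B : ℝ) / N ≤ 11 / 17)
    (m1 m2 p r q : ℤ) (q1 : 1 ≤ q) (q2 : q ≤ N - 1) :
    0.3819828 / ((N : ℝ) - 1) < |p + q * ((a + 33.9696745 / N) / N + m1 : ℝ)| *
      |r + q * ((g * a + 33.9696745 / N) / N + m2 : ℝ)| := by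
  have n0 : (10 ^ 15 : ℝ) ≤ N := by exact_mod_cast hN
  have n1 : (0 : ℝ) < N := by linarith [show (0 : ℝ) < 10 ^ 15 by positivity]
  obtain ⟨sA, hA⟩ := hA
  obtain ⟨sB, hB⟩ := hB
  obtain ⟨k, hk⟩ : ∃ k, k = q * a + N * (p + q * m1) := ⟨_, rfl⟩
  obtain ⟨k', hk'⟩ : ∃ k', k' = q * (g * a) + N * (r + q * m2) := ⟨_, rfl⟩
  have e1 : (p + q * ((a + 33.9696745 / N) / N + m1) : ℝ)
      = (k + 33.9696745 * ((q : ℝ) / N)) / N := by
    rw [hk]; push_cast; field_simp; ring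
  have e2 : (r + q * ((g * a + 33.9696745 / N) / N + m2) : ℝ)
      = (k' + 33.9696745 * ((q : ℝ) / N)) / N := by
    rw [hk']; push_cast; field_simp; ring
  obtain ⟨l, hl⟩ : ∃ l, k' = g * k - l * N :=
    ⟨g * (p + q * m1) - (r + q * m2), by rw [hk, hk']; ring⟩
  have key : 0.38198282 * (N : ℝ) ≤
      |k + 33.9696745 * ((q : ℝ) / N)| * |k' + 33.9696745 * ((q : ℝ) / N)| := by
    rcases le_or_gt |k| 500 with h1 | h1
    · exact end_case (l := l) (i := q * sA + (p + q * m1) * A) hN hg hf (by rw [hl]) a1 a2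
        (by rw [hk]; linear_combination -q * hA) q1 q2 h1
    rcases le_or_gt |k'| 500 with h2 | h2
    · rw [mul_comm |_|]
      refine end_case (l := N' * k - g * l) (i := q * sB + (r + q * m2) * B) hN hg hf ?_ b1 b2
        (by rw [hk']; linear_combination -q * hB) q1 q2 h2
      rw [← abs_neg k, hl]
      congr 1
      linear_combination k * hN'
    have M := mid hN hg hf hl h1 h2
    have u1 : (1 : ℝ) ≤ q := by exact_mod_cast q1
    have u2 : (q : ℝ) ≤ N - 1 := by exact_mod_cast q2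
    have t0 : 0 < (q : ℝ) / N := by positivity
    have t1 : (q : ℝ) / N < 1 := (div_lt_one n1).2 (by linarith)
    generalize (q : ℝ) / N = t at *
    have e3 : ∀ z : ℝ, |z| - 34 ≤ |z + 33.9696745 * t| := by
      intro z
      have := abs_add_le (z + 33.9696745 * t) (-(33.9696745 * t))
      rw [abs_neg, abs_of_pos (show 0 < 33.9696745 * t by positivity),
        add_neg_cancel_right] at this
      linarith
    have y0 : (500 : ℝ) < |(k' : ℝ)| := by exact_mod_cast h2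
    have := mul_le_mul (e3 k) (e3 k') (by linarith) (abs_nonneg _)
    linarith
  rw [e1, e2, abs_div, abs_div, abs_of_pos n1, div_mul_div_comm,
    div_lt_div_iff₀ (by linarith) (by positivity)]
  have := mul_le_mul_of_nonneg_right key (show (0 : ℝ) ≤ N - 1 by linarith)
  nlinarith

/-- Fibonacci pairs in a fixed class modulo `m`. -/
lemma fib_seq (x0 y0 : ℤ) (hx : 0 ≤ x0) (hy : 1 ≤ y0) (h : y0 ^ 2 - y0 * x0 - x0 ^ 2 = 1)
    (m : ℕ) (hm : 0 < m) (K : ℕ) : ∃ x y : ℤ, 0 ≤ x ∧ K ≤ y ∧ y ^ 2 - y * x - x ^ 2 = 1 ∧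
      (m : ℤ) ∣ x - x0 ∧ (m : ℤ) ∣ y - y0 := by
  have : NeZero m := ⟨hm.ne'⟩
  let T : ZMod m × ZMod m → ZMod m × ZMod m := fun z => (z.1 + z.2, z.1 + 2 * z.2)
  have hT : Function.Injective T := by
    rintro ⟨a, b⟩ ⟨c, d⟩ e
    simp only [T, Prod.mk.injEq] at e ⊢
    exact ⟨by linear_combination 2 * e.1 - e.2, by linear_combination e.2 - e.1⟩
  have it : ∀ n : ℕ, ∃ x y : ℤ, 0 ≤ x ∧ (n : ℤ) + 1 ≤ y ∧ y ^ 2 - y * x - x ^ 2 = 1 ∧
      T^[n] ((x0 : ZMod m), (y0 : ZMod m)) = ((x : ZMod m), (y : ZMod m)) := by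
    intro n
    induction n with
    | zero => exact ⟨x0, y0, hx, by simpa using hy, h, rfl⟩
    | succ n ih =>
      obtain ⟨x, y, a, b, c, d⟩ := ih
      refine ⟨x + y, x + 2 * y, by omega, by push_cast; omega, by linear_combination c, ?_⟩
      rw [Function.iterate_succ_apply', d]
      simp [T]
  obtain ⟨n, hn, hp⟩ := hT.mem_periodicPts ((x0 : ZMod m), (y0 : ZMod m))
  obtain ⟨x, y, a, b, c, d⟩ := it (n * K)
  have e := (hp.mul_const K).eq
  rw [d, Prod.mk.injEq] at e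
  refine ⟨x, y, a, ?_, c, ?_, ?_⟩
  · have : K ≤ n * K := Nat.le_mul_of_pos_left K hn
    have : (K : ℤ) ≤ ((n * K : ℕ) : ℤ) := by exact_mod_cast this
    omega
  · exact (ZMod.intCast_eq_intCast_iff_dvd_sub _ _ _).1 e.1.symm
  · exact (ZMod.intCast_eq_intCast_iff_dvd_sub _ _ _).1 e.2.symm

/-- Transport of a fraction `C0 / N0` to the modulus `N`. -/
lemma transport {N g N0 g0 m u v C0 : ℤ} (n0 : 1 ≤ N0) (n1 : 1 ≤ N) (hm : 1 ≤ m)
    (g1 : 0 ≤ g) (g2 : g ≤ N) (g3 : 0 ≤ g0) (g4 : g0 ≤ N0) (hN : m ∣ N - N0) (hg : m ∣ g - g0)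
    (hC : N0 ∣ C0 * m - (u + v * g0)) : ∃ C j : ℤ, m * C = u + v * g + j * N ∧
      |(C : ℝ) / N - C0 / N0| ≤ 2 * ((|(u : ℝ)| + |(v : ℝ)|) / m) := by
  obtain ⟨j, hj⟩ := hC
  obtain ⟨s, hs⟩ := hN
  obtain ⟨t, ht⟩ := hg
  have e : m * (C0 + v * t + j * s) = u + v * g + j * N := by
    linear_combination hj - v * ht - j * hs
  refine ⟨_, j, e, ?_⟩
  generalize C0 + v * t + j * s = C at e
  have a0 : (1 : ℝ) ≤ N0 := by exact_mod_cast n0
  have a1 : (1 : ℝ) ≤ N := by exact_mod_cast n1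
  have a2 : (1 : ℝ) ≤ m := by exact_mod_cast hm
  have bd : ∀ M G : ℤ, 1 ≤ M → 0 ≤ G → G ≤ M →
      |((u : ℝ) + v * G) / M| ≤ |(u : ℝ)| + |(v : ℝ)| := by
    intro M G c1 c2 c3
    have d1 : (1 : ℝ) ≤ M := by exact_mod_cast c1
    have d2 : (0 : ℝ) ≤ G := by exact_mod_cast c2
    have d3 : (G : ℝ) ≤ M := by exact_mod_cast c3
    rw [abs_div, abs_of_pos (show (0 : ℝ) < M by linarith), div_le_iff₀ (by linarith)]
    refine (abs_add_le _ _).trans ?_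
    rw [abs_mul, abs_of_nonneg d2]
    nlinarith [abs_nonneg (u : ℝ), abs_nonneg (v : ℝ)]
  have r1 : (m : ℝ) * C = u + v * g + j * N := by exact_mod_cast e
  have r2 : (C0 : ℝ) * m - (u + v * g0) = N0 * j := by exact_mod_cast hj
  have r3 : (C : ℝ) / N - C0 / N0 = (((u : ℝ) + v * g) / N - ((u : ℝ) + v * g0) / N0) / m := by
    field_simp
    linear_combination (N0 : ℝ) * r1 - (N : ℝ) * r2
  rw [r3, abs_div, abs_of_pos (show (0 : ℝ) < m by linarith), ← mul_div_assoc]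
  refine div_le_div_of_nonneg_right ((abs_sub _ _).trans ?_) (by linarith)
  linarith [bd N g n1 g1 g2, bd N0 g0 n0 g3 g4]

/-- Multiples of `th` along a progression. -/
lemma dens (M : ℤ) (hM : M ≠ 0) (x δ : ℝ) (hδ : 0 < δ) :
    ∃ h n : ℤ, h ≠ 0 ∧ |((M * h : ℤ) : ℝ) * th + n - x| < δ := by
  have hi : Irrational ((M : ℝ) * th / 1) := by
    rw [div_one]; exact th_irr.intCast_mul hM
  have hd := dense_addSubgroupClosure_pair_iff.2 hi
  obtain ⟨z, hz1, hz2, hz3⟩ := exists_irrational_btwn (show x - δ < x + δ by linarith)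
  obtain ⟨y, hy, hy1, hy2⟩ := hd.exists_mem_open
    (U := Set.Ioo (x - δ) (x + δ) ∩ (Set.range (Int.cast : ℤ → ℝ))ᶜ)
    (isOpen_Ioo.inter Int.isClosedEmbedding_coe_real.isClosed_range.isOpen_compl)
    ⟨z, ⟨hz2, hz3⟩, by rintro ⟨n, rfl⟩; exact hz1 ⟨n, by simp⟩⟩
  obtain ⟨h, n, rfl⟩ := AddSubgroup.mem_closure_pair.1 hy
  refine ⟨h, n, ?_, ?_⟩
  · rintro rfl
    exact hy2 ⟨n, by simp⟩
  · simp only [zsmul_eq_mul, mul_one, Set.mem_Ioo] at hy1
    rw [abs_lt]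
    push_cast
    constructor <;> linarith [hy1.1, hy1.2]

end Pool.Agent.P.MP_e45b92_nt.Ul
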