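import Mathlib

set_option autoImplicit false

namespace Pool.Agent.P.MP_e45b92_nt.Ul

/-- The finite check for one small value of `k`. -/
def Chk (k i l d : ℤ) : Prop :=
  i * 17000000000 ≤ k * 10999999983 ∧ k * 11000000000 ≤ (i + 1) * 17000000000 ∧ 0 ≤ d ∧
  d ≤ k * 206232438168778 - l * 10 ^ 15 ∧ d ≤ (l + 1) * 10 ^ 15 - k * 206232438168780 ∧
  38198283 * 17 * 10 ^ 23 ≤
    (k * 17 * 10 ^ 16 + 339696745 * (k * 10999999983 - i * 17000000000)) * d ∧
  (38198283 * 17 * 10 ^ 23 ≤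
    (339696745 * ((i + 1) * 17000000000 - k * 11000000000) - k * 17 * 10 ^ 16) * d ∨
  38198283 * 17 * 10 ^ 23 ≤
    (k * 17 * 10 ^ 16 - 339696745 * ((i + 1) * 17000000000 - k * 10999999983)) * d)

instance (k i l d : ℤ) : Decidable (Chk k i l d) := by unfold Chk; infer_instance

lemma chk_all : ∀ k : ℕ, k < 501 → 0 < k → Chk k (k * 10999999983 / 17000000000)
    (k * 206232438168778 / 10 ^ 15)
    (min (k * 206232438168778 - k * 206232438168778 / 10 ^ 15 * 10 ^ 15)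
      ((k * 206232438168778 / 10 ^ 15 + 1) * 10 ^ 15 - k * 206232438168780)) := by
  decide +kernel

lemma end_pos {k : ℤ} (k1 : 1 ≤ k) (k2 : k ≤ 500) {ω ϑ : ℝ} (a1 : 10999999983 / 17000000000 ≤ ω)
    (a2 : ω ≤ 11 / 17) (b1 : 206232438168778 / 10 ^ 15 ≤ ϑ) (b2 : ϑ ≤ 206232438168780 / 10 ^ 15)
    (i l : ℤ) (h0 : (i : ℝ) < k * ω) (h1 : k * ω < i + 1) :
    0.38198283 ≤ |k + 33.9696745 * (k * ω - i)| * |k * ϑ - l| ∧
      0.38198283 ≤ |k - 33.9696745 * (i + 1 - k * ω)| * |k * ϑ - l| := by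
  obtain ⟨i0, l0, d, c1, c2, c3, c4, c5, c6, c7⟩ : ∃ i0 l0 d, Chk k i0 l0 d := by
    lift k to ℕ using (by omega)
    exact ⟨_, _, _, chk_all k (by omega) (by omega)⟩
  have kp : (0 : ℝ) < k := by exact_mod_cast (show (0 : ℤ) < k by omega)
  have r1 : (i0 : ℝ) * 17000000000 ≤ k * 10999999983 := by exact_mod_cast c1
  have r2 : (k : ℝ) * 11000000000 ≤ (i0 + 1) * 17000000000 := by exact_mod_cast c2
  have r3 : (0 : ℝ) ≤ d := by exact_mod_cast c3
  have r4 : (d : ℝ) ≤ k * 206232438168778 - l0 * 10 ^ 15 := by exact_mod_cast c4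
  have r5 : (d : ℝ) ≤ (l0 + 1) * 10 ^ 15 - k * 206232438168780 := by exact_mod_cast c5
  have m1 := mul_le_mul_of_nonneg_left a1 kp.le
  have m2 := mul_le_mul_of_nonneg_left a2 kp.le
  have m3 := mul_le_mul_of_nonneg_left b1 kp.le
  have m4 := mul_le_mul_of_nonneg_left b2 kp.le
  have hi : i = i0 := by
    have u1 : (i : ℝ) < i0 + 1 := by linarith
    have u2 : (i0 : ℝ) < i + 1 := by linarith
    have u3 : i < i0 + 1 := by exact_mod_cast u1
    have u4 : i0 < i + 1 := by exact_mod_cast u2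
    omega
  subst hi
  have hd : (d : ℝ) / 10 ^ 15 ≤ |k * ϑ - l| := by
    rcases le_or_gt l l0 with h | h
    · have : (l : ℝ) ≤ l0 := by exact_mod_cast h
      refine le_trans ?_ (le_abs_self _)
      linarith
    · have : (l0 : ℝ) + 1 ≤ l := by exact_mod_cast h
      refine le_trans ?_ (neg_le_abs _)
      linarith
  have gen : ∀ (Y : ℤ) (y : ℝ), 38198283 * 17 * 10 ^ 23 ≤ Y * d → (Y : ℝ) / (17 * 10 ^ 16) ≤ |y| →
      0.38198283 ≤ |y| * |k * ϑ - l| := by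
    intro Y y e0 e2
    have e1 : (38198283 * 17 * 10 ^ 23 : ℝ) ≤ Y * d := by exact_mod_cast e0
    have e3 := mul_le_mul_of_nonneg_right e2 (show (0 : ℝ) ≤ d / 10 ^ 15 by positivity)
    have e4 := mul_le_mul_of_nonneg_left hd (abs_nonneg y)
    linarith
  constructor
  · refine gen _ _ c6 (le_trans ?_ (le_abs_self _))
    push_cast
    linarith
  · rcases c7 with c | c
    · refine gen _ _ c (le_trans ?_ (neg_le_abs _))
      push_cast
      linarith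
    · refine gen _ _ c (le_trans ?_ (le_abs_self _))
      push_cast
      linarith

lemma endl {k : ℤ} (hk : |k| ≤ 500) {ω ϑ t : ℝ} (a1 : 10999999983 / 17000000000 ≤ ω)
    (a2 : ω ≤ 11 / 17) (b1 : 206232438168778 / 10 ^ 15 ≤ ϑ) (b2 : ϑ ≤ 206232438168780 / 10 ^ 15)
    (i l : ℤ) (ht : t = k * ω - i) (t0 : 0 < t) (t1 : t < 1) :
    0.38198283 ≤ |k + 33.9696745 * t| * |k * ϑ - l| := by
  obtain ⟨h1, h2⟩ := abs_le.1 hk
  rcases lt_trichotomy k 0 with h | h | h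
  · have := (end_pos (k := -k) (by omega) (by omega) a1 a2 b1 b2 (-i - 1) (-l)
      (by push_cast; linarith) (by push_cast; linarith)).2
    push_cast at this
    rwa [show -(k : ℝ) - 33.9696745 * (-i - 1 + 1 - -k * ω) = -(k + 33.9696745 * t) by
      rw [ht]; ring, show -(k : ℝ) * ϑ - -l = -(k * ϑ - l) by ring, abs_neg, abs_neg] at this
  · subst h
    have u1 : ((0 : ℤ) : ℝ) < ((-i : ℤ) : ℝ) := by push_cast at *; linarith
    have u2 : ((-i : ℤ) : ℝ) < ((1 : ℤ) : ℝ) := by push_cast at *; linarith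
    have u3 := Int.cast_lt.1 u1
    have u4 := Int.cast_lt.1 u2
    omega
  · rw [ht]
    exact (end_pos (by omega) h2 a1 a2 b1 b2 i l (by linarith) (by linarith)).1

lemma form_ne {k l : ℤ} (hk : k ≠ 0) : -29 * k ^ 2 + 279 * k * l - 671 * l ^ 2 ≠ 0 := by
  intro h
  have hl : l ≠ 0 := by
    rintro rfl
    apply hk
    nlinarith [sq_nonneg k]
  have e : ((58 * k - 279 * l : ℤ) : ℝ) ^ 2 = 5 * (l : ℝ) ^ 2 := by
    have : (58 * k - 279 * l) ^ 2 = 5 * l ^ 2 := by linear_combination -116 * h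
    exact_mod_cast this
  have hl' : (l : ℝ) ≠ 0 := by exact_mod_cast hl
  have i5 : Irrational (√((5 : ℕ) : ℝ)) := Nat.Prime.irrational_sqrt (by norm_num)
  refine i5 ⟨|((58 * k - 279 * l : ℤ) : ℚ) / l|, ?_⟩
  rw [Rat.cast_abs, ← Real.sqrt_sq_eq_abs]
  congr 1
  rw [Rat.cast_div, Rat.cast_intCast, Rat.cast_intCast, div_pow, e]
  field_simp
  norm_num

/-- The middle range. -/
lemma mid {N g k k' l : ℤ} (hN : 10 ^ 15 ≤ N) (hg : 10000 * g ≤ 2064 * N)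
    (hf : -29 * N ^ 2 + 279 * N * g - 671 * g ^ 2 = 671) (hk : k' = g * k - l * N)
    (h1 : 500 < |k|) (h2 : 500 < |k'|) : 0.388 * (N : ℝ) ≤ (|(k : ℝ)| - 34) * (|(k' : ℝ)| - 34) := by
  have hne : k ≠ 0 := by rintro rfl; simp at h1
  have hΦ := form_ne (l := l) hne
  have id1 : N ^ 2 * (-29 * k ^ 2 + 279 * k * l - 671 * l ^ 2) =
      671 * k ^ 2 - (279 * N - 1342 * g) * (k * k') - 671 * k' ^ 2 := by
    rw [hk]; linear_combination k ^ 2 * hf
  have id2 : (279 * N - 1342 * g) ^ 2 = 5 * N ^ 2 - 1342 ^ 2 := by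
    linear_combination -2684 * hf
  obtain ⟨R, hR⟩ : ∃ R, R = 279 * N - 1342 * g := ⟨_, rfl⟩
  rw [← hR] at id1 id2
  have R0 : 0 ≤ R := by omega
  have id3 : N ^ 2 ≤ |671 * k ^ 2 - R * (k * k') - 671 * k' ^ 2| := by
    rw [← id1, abs_mul, abs_of_nonneg (sq_nonneg N)]
    exact le_mul_of_one_le_right (sq_nonneg N) (Int.one_le_abs hΦ)
  have n0 : (10 ^ 15 : ℝ) ≤ N := by exact_mod_cast hN
  have x0 : (500 : ℝ) < |(k : ℝ)| := by exact_mod_cast h1
  have y0 : (500 : ℝ) < |(k' : ℝ)| := by exact_mod_cast h2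
  have r0 : (0 : ℝ) ≤ R := by exact_mod_cast R0
  have r1 : (R : ℝ) ≤ 2.2361 * N := by
    have : (R : ℝ) ^ 2 = 5 * N ^ 2 - 1342 ^ 2 := by exact_mod_cast id2
    refine (abs_le_of_sq_le_sq' ?_ (by positivity)).2
    nlinarith [sq_nonneg (N : ℝ)]
  have r3 : (N : ℝ) ^ 2 ≤ |671 * (k : ℝ) ^ 2 - R * (k * k') - 671 * k' ^ 2| := by
    exact_mod_cast id3
  have r4 : |(R : ℝ) * (k * k')| = R * (|(k : ℝ)| * |(k' : ℝ)|) := by
    rw [abs_mul, abs_mul, abs_of_nonneg r0]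
  have r5 := le_abs_self ((R : ℝ) * (k * k'))
  have r6 := neg_le_abs ((R : ℝ) * (k * k'))
  rw [← sq_abs (k : ℝ), ← sq_abs (k' : ℝ)] at r3
  rw [r4] at r5 r6
  generalize |(k : ℝ)| = x at *
  generalize |(k' : ℝ)| = y at *
  by_cases c1 : (N : ℝ) / 1000 ≤ x
  · nlinarith
  by_cases c2 : (N : ℝ) / 1000 ≤ y
  · nlinarith
  push Not at c1 c2
  have s1 : x ^ 2 ≤ ((N : ℝ) / 1000) ^ 2 := by gcongr
  have s2 : y ^ 2 ≤ ((N : ℝ) / 1000) ^ 2 := by gcongr
  have s3 : (N : ℝ) ^ 2 ≤ R * (x * y) + 671 * ((N : ℝ) / 1000) ^ 2 := by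
    rcases le_abs.1 r3 with h | h <;> nlinarith [sq_nonneg x, sq_nonneg y]
  have s4 : (R : ℝ) * (x * y) ≤ 2.2361 * N * (x * y) := by gcongr
  have s5 : 0.4469 * (N : ℝ) ≤ x * y := by
    refine le_of_mul_le_mul_left ?_ (show (0 : ℝ) < 2.2361 * N by positivity)
    nlinarith
  have s6 : 0.932 * x * (0.932 * y) ≤ (x - 34) * (y - 34) :=
    mul_le_mul (by linarith) (by linarith) (by positivity) (by linarith)
  nlinarith

end Pool.Agent.P.MP_e45b92_nt.Ul
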