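import Pool.Agent.P.MP_e45b92_nt.UlCore

set_option autoImplicit false

namespace Pool.Agent.P.MP_e45b92_nt.Ul

theorem dense_ins (x0 y0 δ : ℝ) (hδ : 0 < δ) (K : ℕ) : ∃ α β : ℝ, |α - x0| < δ ∧ |β - y0| < δ ∧
    ∃ M : ℕ, K < M ∧ ∀ p r q : ℤ, 1 ≤ q → q ≤ M →
      0.3819828 / (M : ℝ) < |p + q * α| * |r + q * β| := by
  obtain ⟨N0, hN0⟩ : ∃ N0 : ℤ, N0 = 1832985435527099499389 := ⟨_, rfl⟩
  obtain ⟨s2, n2, hs2, d2⟩ := dens (N0 * 10 ^ 12) (by rw [hN0]; norm_num) x0 (δ / 2) (by positivity)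
  obtain ⟨s1, n1, -, d1⟩ := dens N0 (by rw [hN0]; norm_num) (y0 - 174951446787142061395 * th)
    (δ / 2) (by positivity)
  obtain ⟨h1, e1⟩ : ∃ h1 : ℤ, h1 = 174951446787142061395 + N0 * s1 := ⟨_, rfl⟩
  obtain ⟨h2, e2⟩ : ∃ h2 : ℤ, h2 = N0 * 10 ^ 12 * s2 := ⟨_, rfl⟩
  rw [← e2] at d2
  have d1' : |(h1 : ℝ) * th + n1 - y0| < δ / 2 := by
    rw [e1]
    push_cast at d1 ⊢
    rwa [show (174951446787142061395 + (N0 : ℝ) * s1) * th + n1 - y0
      = N0 * s1 * th + n1 - (y0 - 174951446787142061395 * th) by ring]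
  have big : (10 : ℤ) ^ 12 ≤ |h2| := by
    have := Int.one_le_abs hs2
    rw [e2, abs_mul, hN0, abs_of_pos (by norm_num)]
    omega
  have hm1 : 1 ≤ h1 ^ 2 + h2 ^ 2 := by nlinarith [sq_nonneg h1, sq_abs h2]
  obtain ⟨m, hm⟩ : ∃ m : ℕ, (m : ℤ) = h1 ^ 2 + h2 ^ 2 := ⟨(h1 ^ 2 + h2 ^ 2).toNat, by omega⟩
  obtain ⟨K', hK'⟩ := exists_nat_gt (max ((|(h1 : ℝ)| + |(h2 : ℝ)| + 34) / (δ / 2)) (10 ^ 15 + K + 1))
  obtain ⟨x, y, hx, hy, hxy, dx, dy⟩ := fib_seq 420196140727489673 679891637638612258 (by norm_num)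
    (by norm_num) (by norm_num) m (by omega) K'
  have k1 : (10 : ℤ) ^ 15 + K + 1 < K' := by exact_mod_cast (le_max_right _ _).trans_lt hK'
  have k2 := (le_max_left _ _).trans_lt hK'
  obtain ⟨N, hN⟩ : ∃ N : ℤ, N = 1997 * y + 1131 * x := ⟨_, rfl⟩
  obtain ⟨g, hg⟩ : ∃ g : ℤ, g = 412 * y + 233 * x := ⟨_, rfl⟩
  have f1 : 10 ^ 15 ≤ N := by omega
  have f2 : 10000 * g ≤ 2064 * N := by omega
  have f3 : -29 * N ^ 2 + 279 * N * g - 671 * g ^ 2 = 671 := by
    rw [hN, hg]; linear_combination 671 * hxy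
  have f4 : N * (85 * y + 48 * x) = g ^ 2 + 1 := by rw [hN, hg]; linear_combination hxy
  have dN : (m : ℤ) ∣ N - N0 := by
    rw [show N - N0 = 1997 * (y - 679891637638612258) + 1131 * (x - 420196140727489673) by omega]
    exact (dy.mul_left _).add (dx.mul_left _)
  have dg : (m : ℤ) ∣ g - 378021055496613344105 := by
    rw [show g - 378021055496613344105
      = 412 * (y - 679891637638612258) + 233 * (x - 420196140727489673) by omega]
    exact (dy.mul_left _).add (dx.mul_left _)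
  have z1 : ((h1 : ℤ) : ZMod 1832985435527099499389) = 174951446787142061395 := by
    rw [e1, hN0]; push_cast
    rw [show (1832985435527099499389 : ZMod 1832985435527099499389) = 0 from rfl]; ring
  have z2 : ((h2 : ℤ) : ZMod 1832985435527099499389) = 0 := by
    rw [e2, hN0]; push_cast
    rw [show (1832985435527099499389000000000000 : ZMod 1832985435527099499389) = 0 from rfl]; ring
  have zd : ∀ w : ℤ, ((w : ℤ) : ZMod 1832985435527099499389) = 0 → N0 ∣ w := fun w hw => by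
    rw [hN0]; exact_mod_cast (ZMod.intCast_zmod_eq_zero_iff_dvd w _).1 hw
  obtain ⟨A, jA, hA, bA⟩ := transport (N := N) (g := g) (N0 := N0) (g0 := 378021055496613344105)
    (m := m) (u := h1) (v := -h2) (C0 := 1186049398671852643287) (by omega) (by omega) (by omega)
    (by omega) (by omega) (by omega) (by omega) dN dg (zd _ (by
      rw [hm]; push_cast; rw [z1, z2]; decide +kernel))
  obtain ⟨B, jB, hB, bB⟩ := transport (N := N) (g := g) (N0 := N0) (g0 := 378021055496613344105)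
    (m := m) (u := -h2) (v := -h1) (C0 := 1186049398528316438277) (by omega) (by omega) (by omega)
    (by omega) (by omega) (by omega) (by omega) dN dg (zd _ (by
      rw [hm]; push_cast; rw [z1, z2]; decide +kernel))
  have cop : IsCoprime N (m : ℤ) := by
    obtain ⟨c, hc⟩ := zd (m * 1186049398671852643287 ^ 2 - 1) (by
      rw [hm]; push_cast; rw [z1, z2]; decide +kernel)
    obtain ⟨t, ht⟩ := dN
    exact ⟨-c, 1186049398671852643287 ^ 2 + c * t, by linear_combination hc - c * ht⟩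
  have iA : N ∣ (h1 + h2 * g) * A - 1 := cop.dvd_of_dvd_mul_left
    ⟨(h1 + h2 * g) * jA - h2 ^ 2 * (85 * y + 48 * x), by
      linear_combination (h1 + h2 * g) * hA - hm + h2 ^ 2 * f4⟩
  have iB : N ∣ g * (h1 + h2 * g) * B - 1 := cop.dvd_of_dvd_mul_left
    ⟨g * (h1 + h2 * g) * jB - (h1 ^ 2 + h2 ^ 2 + g * h1 * h2) * (85 * y + 48 * x), by
      linear_combination g * (h1 + h2 * g) * hB - hm + (h1 ^ 2 + h2 ^ 2 + g * h1 * h2) * f4⟩
  have sm : (|(h1 : ℝ)| + |(h2 : ℝ)|) / ((m : ℤ) : ℝ) ≤ 2 / 10 ^ 12 := by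
    have b : (10 : ℝ) ^ 12 ≤ |(h2 : ℝ)| := by exact_mod_cast big
    have p : (0 : ℝ) < ((m : ℤ) : ℝ) := by exact_mod_cast (show (0 : ℤ) < m by omega)
    rw [div_le_div_iff₀ p (by positivity), hm]
    push_cast
    rw [← sq_abs (h1 : ℝ), ← sq_abs (h2 : ℝ)]
    have := abs_nonneg (h1 : ℝ)
    generalize |(h1 : ℝ)| = u at *
    generalize |(h2 : ℝ)| = v at *
    nlinarith [sq_nonneg (u - v), mul_le_mul_of_nonneg_left b (show 0 ≤ u + v by linarith)]
  simp only [Int.cast_neg, abs_neg] at bA bB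
  rw [add_comm |(h2 : ℝ)|] at bB
  rw [hN0] at bA bB
  obtain ⟨bA1, bA2⟩ := abs_le.1 bA
  obtain ⟨bB1, bB2⟩ := abs_le.1 bB
  push_cast at bA1 bA2 bB1 bB2 sm
  have C := core f1 f2 f3 f4 iA iB (by linarith) (by linarith) (by linarith) (by linarith)
    n2 (n1 - h2 * (85 * y + 48 * x))
  obtain ⟨t1, t2⟩ := th_near f1 f2 f3
  have n0 : (10 ^ 15 : ℝ) ≤ N := by exact_mod_cast f1
  have np : (0 : ℝ) < N := by linarith [show (0 : ℝ) < 10 ^ 15 by positivity]
  have nK : (K' : ℝ) ≤ N := by exact_mod_cast (show (K' : ℤ) ≤ N by omega)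
  have sm2 : (|(h1 : ℝ)| + |(h2 : ℝ)| + 34) * (1 / N) < δ / 2 := by
    rw [mul_one_div, div_lt_iff₀ np]
    rw [div_lt_iff₀ (by positivity)] at k2
    nlinarith
  have c0 : (0 : ℝ) ≤ 33.9696745 / N := by positivity
  have c1 : (33.9696745 : ℝ) / N ≤ 34 := by
    rw [div_le_iff₀ np]; linarith
  have q0 : (0 : ℝ) < 1 / N := by positivity
  have bd : ∀ u v : ℝ, |u * (1 / N) + v * (g / N - th) + 33.9696745 / N * (1 / N)|
      ≤ (|u| + |v| + 34) * (1 / N) := by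
    intro u v
    refine (abs_add_three _ _ _).trans ?_
    rw [abs_mul, abs_mul, abs_mul, abs_of_pos q0, abs_of_nonneg t1, abs_of_nonneg c0]
    nlinarith [mul_le_mul_of_nonneg_left t2 (abs_nonneg v), mul_le_mul_of_nonneg_right c1 q0.le]
  obtain ⟨M, hM⟩ : ∃ M : ℕ, (M : ℤ) = N - 1 := ⟨(N - 1).toNat, by omega⟩
  have hM' : (M : ℝ) = N - 1 := by exact_mod_cast hM
  refine ⟨_, _, ?_, ?_, M, by omega, fun p r q q1 q2 => hM' ▸ C p r q q1 (by omega)⟩
  · have e : (((h1 + h2 * g : ℤ) : ℝ) + 33.9696745 / N) / N + n2 - x0 =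
        (h1 * (1 / N) + h2 * (g / N - th) + 33.9696745 / N * (1 / N)) + (h2 * th + n2 - x0) := by
      push_cast; ring
    rw [e]
    linarith [abs_add_le (h1 * (1 / N) + h2 * (g / N - th) + 33.9696745 / N * (1 / N) : ℝ)
      (h2 * th + n2 - x0), bd h1 h2]
  · have f4' : (N : ℝ) * (85 * y + 48 * x) = g ^ 2 + 1 := by exact_mod_cast f4
    have e : ((g : ℝ) * ((h1 + h2 * g : ℤ) : ℝ) + 33.9696745 / N) / N
        + ((n1 - h2 * (85 * y + 48 * x) : ℤ) : ℝ) - y0 =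
        (-h2 * (1 / N) + h1 * (g / N - th) + 33.9696745 / N * (1 / N)) + (h1 * th + n1 - y0) := by
      push_cast
      field_simp
      linear_combination -(N : ℝ) * h2 * f4'
    have := bd (-h2) h1
    rw [abs_neg] at this
    rw [e]
    linarith [abs_add_le (-h2 * (1 / N) + h1 * (g / N - th) + 33.9696745 / N * (1 / N) : ℝ)
      (h1 * th + n1 - y0)]

theorem residual_ins : ∀ᶠ x : ℝ × ℝ in residual (ℝ × ℝ), ∀ K : ℕ, ∃ M : ℕ, K < M ∧ ∀ p r q : ℤ,
    1 ≤ q → q ≤ M → 0.3819828 / (M : ℝ) < |p + q * x.1| * |r + q * x.2| := by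
  rw [eventually_countable_forall]
  intro K
  have nz : ∀ (y : ℝ) (p : ℤ), ‖(y : UnitAddCircle)‖ ≤ |p + y| := by
    intro y p
    rw [UnitAddCircle.norm_eq]
    refine (round_le y (-p)).trans_eq ?_
    push_cast
    rw [sub_neg_eq_add, add_comm]
  let U : Set (ℝ × ℝ) := ⋃ M ∈ Set.Ioi K, ⋂ q ∈ Finset.Icc (1 : ℤ) M, {x | 0.3819828 / (M : ℝ) <
    ‖((q * x.1 : ℝ) : UnitAddCircle)‖ * ‖((q * x.2 : ℝ) : UnitAddCircle)‖}
  have hU : IsOpen U := isOpen_biUnion fun M _ => isOpen_biInter_finset fun q _ =>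
    isOpen_lt continuous_const (by fun_prop)
  have hD : Dense U := by
    rw [Metric.dense_iff]
    rintro ⟨x0, y0⟩ δ hδ
    obtain ⟨α, β, a, b, M, c, d⟩ := dense_ins x0 y0 δ hδ K
    refine ⟨(α, β), ?_, ?_⟩
    · rw [Metric.mem_ball, Prod.dist_eq, max_lt_iff]
      exact ⟨a, b⟩
    · simp only [U, Set.mem_iUnion, Set.mem_iInter, Set.mem_ofPred_eq, Finset.mem_Icc]
      refine ⟨M, c, fun q hq => ?_⟩
      have := d (-round (q * α)) (-round (q * β)) q hq.1 hq.2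
      rw [UnitAddCircle.norm_eq, UnitAddCircle.norm_eq]
      push_cast at this
      rwa [neg_add_eq_sub, neg_add_eq_sub] at this
  filter_upwards [residual_of_dense_open hU hD] with x hx
  simp only [U, Set.mem_iUnion, Set.mem_iInter, Set.mem_ofPred_eq, Finset.mem_Icc] at hx
  obtain ⟨M, c, d⟩ := hx
  exact ⟨M, c, fun p r q q1 q2 => (d q ⟨q1, q2⟩).trans_le
    (mul_le_mul (nz _ p) (nz _ r) (norm_nonneg _) (abs_nonneg _))⟩

theorem residual_mwa : ∀ᶠ x : ℝ × ℝ in residual (ℝ × ℝ), ∀ K : ℕ, ∃ T : ℝ, K < T ∧ ∃ p r q : ℤ,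
    1 ≤ q ∧ (q : ℝ) ≤ T ∧ |p + q * x.1| * |r + q * x.2| < 1 / ((K : ℝ) + 1) / T := by
  rw [eventually_countable_forall]
  intro K
  let U : Set (ℝ × ℝ) := ⋃ (T : ℝ) (_ : K < T) (p : ℤ) (r : ℤ) (q : ℤ) (_ : 1 ≤ q)
    (_ : (q : ℝ) ≤ T), {x | |p + q * x.1| * |r + q * x.2| < 1 / ((K : ℝ) + 1) / T}
  have hU : IsOpen U := by
    simp only [U]
    iterate 7 refine isOpen_iUnion fun _ => ?_
    exact isOpen_lt (by fun_prop) continuous_const
  have hD : Dense U := by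
    rw [Metric.dense_iff]
    rintro ⟨x0, y0⟩ δ hδ
    obtain ⟨a, a1, a2⟩ := exists_rat_btwn (show x0 < x0 + δ by linarith)
    refine ⟨((a : ℝ), y0), ?_, ?_⟩
    · rw [Metric.mem_ball, Prod.dist_eq, max_lt_iff, dist_self, Real.dist_eq, abs_lt]
      exact ⟨⟨by linarith, by linarith⟩, hδ⟩
    · simp only [U, Set.mem_iUnion, Set.mem_ofPred_eq]
      have d0 : (0 : ℝ) < a.den := by exact_mod_cast a.den_pos
      have k0 : (0 : ℝ) ≤ K := by positivity
      refine ⟨K + a.den, by linarith, -a.num, 0, a.den, by exact_mod_cast a.den_pos,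
        by push_cast; linarith, ?_⟩
      have : ((-a.num : ℤ) : ℝ) + ((a.den : ℤ) : ℝ) * (a : ℝ) = 0 := by
        rw [Rat.cast_def]; push_cast; field_simp; ring
      rw [this, abs_zero, zero_mul]
      positivity
  filter_upwards [residual_of_dense_open hU hD] with x hx
  simp only [U, Set.mem_iUnion, Set.mem_ofPred_eq] at hx
  obtain ⟨T, a, p, r, q, b, c, d⟩ := hx
  exact ⟨T, a, p, r, q, b, c, d⟩

end Pool.Agent.P.MP_e45b92_nt.Ul
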