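import Pool.Agent.P.MP_e45b92_nt.UlTree

set_option autoImplicit false

namespace Pool.Agent.P.MP_e45b92_nt.Ul

lemma mod_false (M : Mod) (hs1 : 1 ≤ M.s) (hs2 : M.s ≤ 2) : False := by
  have p1 := mul_nonneg M.s0.le M.w0
  have p2 := mul_nonneg M.s0.le (sub_nonneg.2 M.w1)
  have hZ := Z_pos
  have k1 : Ok M ⟨1, 1, 0, 0⟩ := by
    have := M.H 1 0 (by norm_num) (by norm_num)
      (by rw [abs_le]; constructor <;> push_cast <;> nlinarith [M.la]) 0
    rw [abs_of_nonneg (by simpa using M.x0)] at this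
    exact ⟨by norm_num, by simpa using this⟩
  have k2 : Ok M ⟨1, 0, 1, 0⟩ := by
    have := M.H 0 1 (by norm_num) (by norm_num)
      (by rw [abs_le]; constructor <;> push_cast <;> nlinarith [M.lb]) 0
    rw [abs_of_nonneg (by simpa using M.y0)] at this
    exact ⟨by norm_num, by simpa using this⟩
  have k3 : Ok M ⟨-1, 1, 1, 1⟩ := by
    have := M.H 1 1 (by norm_num) (by norm_num)
      (by rw [abs_le]; constructor <;> push_cast <;> nlinarith [M.la, M.lb]) 1
    rw [abs_of_nonpos (by push_cast; linarith [M.xy])] at this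
    exact ⟨by norm_num, by simpa using this⟩
  refine sound M k1 tree _ _ _ _ _ tree_ok ?_ ?_ ?_ ?_ ?_
  · intro c hc
    simp only [List.mem_cons, List.not_mem_nil, or_false] at hc
    rcases hc with rfl | rfl | rfl
    exacts [k3, k2, k1]
  · simpa using mul_nonneg M.w0 hZ.le
  · nlinarith [M.w1]
  · nlinarith
  · push_cast; nlinarith

/-- The hypothesis of the symmetric model. -/
def Hyp (a b d1 d2 x y : ℝ) : Prop :=
  ∀ i j : ℕ, 0 < i + j → i + j ≤ 10000 → |(i : ℝ) * a - j * b| ≤ 1 → ∀ n : ℤ,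
    1 ≤ ((i : ℝ) * d1 + j * d2) * |i * x + j * y - n|

lemma model1 {a b d1 d2 x y : ℝ} (a0 : 0 ≤ a) (a1 : a ≤ 1) (b0 : 0 ≤ b) (b1 : b ≤ 1)
    (ab : 1 ≤ a + b) (h1 : 0 < d1) (h12 : d1 ≤ d2) (hD : (a * d2 + b * d1) * 381983 ≤ 1000000)
    (x0 : 0 ≤ x) (y0 : 0 ≤ y) (xy : x + y ≤ 1) (H : Hyp a b d1 d2 x y) : False := by
  have hs : 0 < a + b := by linarith
  have e1 : (a + b) * (a / (a + b)) = a := by field_simp
  refine mod_false ⟨a / (a + b), a + b, d1, d2 - d1, x, y, by positivity,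
    (div_le_one hs).2 (by linarith), hs, by linarith, by linarith, h1, by linarith, ?_, x0, y0, xy,
    ?_⟩ ab (show a + b ≤ 2 by linarith)
  · have : (a + b) * (d1 + a / (a + b) * (d2 - d1)) = a * d2 + b * d1 := by field_simp; ring
    rwa [this]
  · intro i j h3 h4 h5 n
    have e2 : (a + b) * (((i : ℝ) + j) * (a / (a + b)) - j) = i * a - j * b := by
      field_simp; ring
    rw [e2] at h5
    have e3 : ((i : ℝ) + j) * d1 + j * (d2 - d1) = i * d1 + j * d2 := by ring
    rw [e3]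
    exact H i j h3 h4 h5 n

lemma model2 {a b d1 d2 x y : ℝ} (a0 : 0 ≤ a) (a1 : a ≤ 1) (b0 : 0 ≤ b) (b1 : b ≤ 1)
    (ab : 1 ≤ a + b) (h1 : 0 < d1) (h12 : d1 ≤ d2) (hD : (a * d2 + b * d1) * 381983 ≤ 1000000)
    (H : Hyp a b d1 d2 x y) : False := by
  have f1 := Int.fract_nonneg x
  have f2 := Int.fract_nonneg y
  have f3 := Int.fract_lt_one x
  have f4 := Int.fract_lt_one y
  rcases le_total (Int.fract x + Int.fract y) 1 with h | h
  · refine model1 a0 a1 b0 b1 ab h1 h12 hD f1 f2 h fun i j h3 h4 h5 n => ?_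
    have := H i j h3 h4 h5 (n + i * ⌊x⌋ + j * ⌊y⌋)
    have e : (i : ℝ) * x + j * y - ((n + i * ⌊x⌋ + j * ⌊y⌋ : ℤ) : ℝ)
        = i * Int.fract x + j * Int.fract y - n := by
      simp only [Int.fract]; push_cast; ring
    rwa [e] at this
  · refine model1 (x := 1 - Int.fract x) (y := 1 - Int.fract y) a0 a1 b0 b1 ab h1 h12 hD
      (by linarith) (by linarith) (by linarith) fun i j h3 h4 h5 n => ?_
    have := H i j h3 h4 h5 (-n + i * (⌊x⌋ + 1) + j * (⌊y⌋ + 1))
    have e : (i : ℝ) * x + j * y - ((-n + i * (⌊x⌋ + 1) + j * (⌊y⌋ + 1) : ℤ) : ℝ)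
        = -(i * (1 - Int.fract x) + j * (1 - Int.fract y) - n) := by
      simp only [Int.fract]; push_cast; ring
    rwa [e, abs_neg] at this

lemma model3 {a b d1 d2 x y : ℝ} (a0 : 0 ≤ a) (a1 : a ≤ 1) (b0 : 0 ≤ b) (b1 : b ≤ 1)
    (ab : 1 ≤ a + b) (h1 : 0 < d1) (h2 : 0 < d2) (hD : (a * d2 + b * d1) * 381983 ≤ 1000000)
    (H : Hyp a b d1 d2 x y) : False := by
  rcases le_total d1 d2 with h | h
  · exact model2 a0 a1 b0 b1 ab h1 h hD H
  · refine model2 (x := y) (y := x) b0 b1 a0 a1 (by linarith) h2 h (by linarith)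
      fun i j h3 h4 h5 n => ?_
    have := H j i (by omega) (by omega) (by rwa [abs_sub_comm]) n
    rwa [add_comm ((j : ℝ) * d1), add_comm ((j : ℝ) * x)] at this

/-- Farey neighbours of `α` of order `M`. -/
lemma farey (α : ℝ) (M : ℤ) (hM : 1 ≤ M) (h : ∀ q p : ℤ, 1 ≤ q → q ≤ M → (p : ℝ) + q * α ≠ 0) :
    ∃ qa qb pa pb : ℤ, 1 ≤ qa ∧ qa ≤ M ∧ 1 ≤ qb ∧ qb ≤ M ∧ M < qa + qb ∧
      0 < (pa : ℝ) + qa * α ∧ 0 < (pb : ℝ) - qb * α ∧ qa * pb + qb * pa = 1 := by
  have step : ∀ k : ℕ, ∀ qa qb pa pb : ℤ, 1 ≤ qa → qa ≤ M → 1 ≤ qb → qb ≤ M →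
      0 < (pa : ℝ) + qa * α → 0 < (pb : ℝ) - qb * α → qa * pb + qb * pa = 1 →
      M - (qa + qb) < k → ∃ qa qb pa pb : ℤ, 1 ≤ qa ∧ qa ≤ M ∧ 1 ≤ qb ∧ qb ≤ M ∧ M < qa + qb ∧
      0 < (pa : ℝ) + qa * α ∧ 0 < (pb : ℝ) - qb * α ∧ qa * pb + qb * pa = 1 := by
    intro k
    induction k with
    | zero =>
      intro qa qb pa pb h1 h2 h3 h4 h5 h6 h7 h8
      exact ⟨qa, qb, pa, pb, h1, h2, h3, h4, by omega, h5, h6, h7⟩
    | succ k ih =>
      intro qa qb pa pb h1 h2 h3 h4 h5 h6 h7 h8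
      rcases lt_or_ge M (qa + qb) with hlt | hge
      · exact ⟨qa, qb, pa, pb, h1, h2, h3, h4, hlt, h5, h6, h7⟩
      · have hne := h (qa + qb) (pa - pb) (by omega) hge
        rcases lt_or_gt_of_ne hne with hn | hn
        · push_cast at hn
          exact ih qa (qa + qb) pa (pb - pa) h1 h2 (by omega) hge h5 (by push_cast; linarith)
            (by linarith) (by omega)
        · exact ih (qa + qb) qb (pa - pb) pb (by omega) hge h3 h4 hn h6 (by linarith) (by omega)
  have h0 := h 1 (-⌊α⌋) le_rfl hM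
  have f1 := Int.floor_le α
  have f2 := Int.lt_floor_add_one α
  push_cast at h0
  refine step M.toNat 1 1 (-⌊α⌋) (⌊α⌋ + 1) le_rfl hM le_rfl hM ?_ (by push_cast; linarith)
    (by ring) (by omega)
  push_cast
  exact lt_of_le_of_ne (by linarith) h0.symm

theorem upper (α β T : ℝ) (hT : 10000 ≤ T) :
    ∃ p r q : ℤ, 1 ≤ q ∧ (q : ℝ) ≤ T ∧ |p + q * α| * |r + q * β| < 0.381983 / T := by
  by_contra hc
  push Not at hc
  have T0 : 0 < T := by linarith
  have e0 : (0 : ℝ) < 0.381983 / T := by positivity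
  have hM : (10000 : ℤ) ≤ ⌊T⌋ := Int.le_floor.2 (by exact_mod_cast hT)
  obtain ⟨qa, qb, pa, pb, h1, h2, h3, h4, h5, h6, h7, h8⟩ := farey α ⌊T⌋ (by omega) (by
    intro q p a b c
    have := hc p 0 q a (Int.le_floor.1 b)
    rw [c] at this
    simp only [abs_zero, zero_mul] at this
    linarith)
  have g1 : (1 : ℝ) ≤ qa := by exact_mod_cast h1
  have g3 : (1 : ℝ) ≤ qb := by exact_mod_cast h3
  have g2 := Int.le_floor.1 h2
  have g4 := Int.le_floor.1 h4
  have g5 : T ≤ (qa : ℝ) + qb := by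
    have a : ((⌊T⌋ + 1 : ℤ) : ℝ) ≤ ((qa + qb : ℤ) : ℝ) := by exact_mod_cast h5
    have b := Int.lt_floor_add_one T
    push_cast at a
    linarith
  have g8 : (qa : ℝ) * pb + qb * pa = 1 := by exact_mod_cast h8
  refine model3 (a := qa / T) (b := qb / T) (d1 := (pa + qa * α) / (0.381983 / T))
    (d2 := (pb - qb * α) / (0.381983 / T)) (x := qa * β) (y := -(qb * β)) (by positivity)
    ((div_le_one T0).2 g2) (by positivity) ((div_le_one T0).2 g4)
    (by rw [← add_div, le_div_iff₀ T0]; linarith) (div_pos h6 e0) (div_pos h7 e0) ?_ ?_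
  · have : (qa : ℝ) / T * ((pb - qb * α) / (0.381983 / T)) +
        qb / T * ((pa + qa * α) / (0.381983 / T)) = (qa * pb + qb * pa) / 0.381983 := by
      field_simp; ring
    rw [this, g8]
    norm_num
  · intro i j a1 a2 a3 n
    have hq : |((i * qa - j * qb : ℤ) : ℝ)| ≤ T := by
      have : (i : ℝ) * (qa / T) - j * (qb / T) = ((i * qa - j * qb : ℤ) : ℝ) / T := by
        push_cast; ring
      rwa [this, abs_div, abs_of_pos T0, div_le_one T0] at a3
    have hne : (i : ℤ) * qa - j * qb ≠ 0 := by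
      intro h0
      have u1 : (i : ℤ) = qb * (j * pb + i * pa) := by linear_combination -(i : ℤ) * h8 + pb * h0
      have u2 : (j : ℤ) = qa * (j * pb + i * pa) := by linear_combination -(j : ℤ) * h8 - pa * h0
      have u3 : (i : ℤ) + j = (qa + qb) * (j * pb + i * pa) := by linarith
      have u4 : (0 : ℤ) < i + j := by exact_mod_cast a1
      have u5 : (i : ℤ) + j ≤ 10000 := by exact_mod_cast a2
      have u6 : 0 < (j : ℤ) * pb + i * pa := by
        by_contra hh
        have := mul_nonpos_of_nonneg_of_nonpos (show 0 ≤ qa + qb by omega) (not_lt.1 hh)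
        omega
      have := mul_le_mul_of_nonneg_left (show 1 ≤ (j : ℤ) * pb + i * pa by omega)
        (show 0 ≤ qa + qb by omega)
      omega
    have hG : (0 : ℝ) ≤ i * (pa + qa * α) + j * (pb - qb * α) := by positivity
    have key : 0.381983 / T ≤ (i * (pa + qa * α) + j * (pb - qb * α)) *
        |(i : ℝ) * (qa * β) + j * -(qb * β) - n| := by
      rcases lt_or_gt_of_ne hne with hn | hn
      · have := hc (-(i * pa + j * pb)) n (-(i * qa - j * qb)) (by omega)
          (by rw [Int.cast_neg]; exact (neg_le_abs _).trans hq)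
        push_cast at this
        rwa [show -((i : ℝ) * pa + j * pb) + -(i * qa - j * qb) * α
            = -(i * (pa + qa * α) + j * (pb - qb * α)) by ring,
          show (n : ℝ) + -(i * qa - j * qb) * β = -(i * (qa * β) + j * -(qb * β) - n) by ring,
          abs_neg, abs_neg, abs_of_nonneg hG] at this
      · have := hc (i * pa + j * pb) (-n) (i * qa - j * qb) (by omega) ((le_abs_self _).trans hq)
        push_cast at this
        rwa [show ((i : ℝ) * pa + j * pb) + (i * qa - j * qb) * α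
            = i * (pa + qa * α) + j * (pb - qb * α) by ring,
          show -(n : ℝ) + (i * qa - j * qb) * β = i * (qa * β) + j * -(qb * β) - n by ring,
          abs_of_nonneg hG] at this
    have e : (i : ℝ) * ((pa + qa * α) / (0.381983 / T)) + j * ((pb - qb * α) / (0.381983 / T))
        = (i * (pa + qa * α) + j * (pb - qb * α)) / (0.381983 / T) := by ring
    rw [e, div_mul_eq_mul_div, le_div_iff₀ e0, one_mul]
    exact key

end Pool.Agent.P.MP_e45b92_nt.Ul
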