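import Pool.Agent.P.MP_e45b92_nt.Geo

set_option autoImplicit false

namespace Pool.Agent.P.MP_e45b92_nt.Par
variable (S : Par)

theorem Pt.facts {S : Par} {p g q r : ℤ} {c ρ ω D a : ℝ} (h : S.Pt p g q r c ρ) (hω : 0 < ω)
    (h1 : ω ≤ ρ) (h2 : ρ ≤ S.R * ω) (h3 : |a - c| ≤ D) :
    (1 : ℝ) ≤ g * q ∧ 0 < |(g * r : ℝ) + g * q * S.b| ∧
    S.T * (g * q) * ω * |(g * r : ℝ) + g * q * S.b| ≤ S.e ∧
    S.e ≤ S.T * (g * q) * (S.R * ω) * |(g * r : ℝ) + g * q * S.b| ∧
    |(p : ℝ) + g * q * a| ≤ g * q * D := by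
  have hg : (1 : ℝ) ≤ g := by exact_mod_cast h.hg
  have hq : (1 : ℝ) ≤ q := by exact_mod_cast h.hq
  have hQ : (1 : ℝ) ≤ g * q := by nlinarith
  have hT := S.T0
  have hy : 0 < |(g * r : ℝ) + g * q * S.b| := by
    rcases (abs_nonneg ((g * r : ℝ) + g * q * S.b)).lt_or_eq with h0 | h0
    · exact h0
    · have := h.hρ
      rw [← h0] at this
      simp at this
      linarith
  have hD : 0 < S.T * (g * q) * |(g * r : ℝ) + g * q * S.b| := by positivity
  rw [h.hρ] at h1 h2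
  rw [le_div_iff₀ hD] at h1
  rw [div_le_iff₀ hD] at h2
  refine ⟨hQ, hy, by linarith, by linarith, ?_⟩
  rw [xi_eq (by linarith : (0 : ℝ) < g * q), ← h.hc]
  exact mul_le_mul_of_nonneg_left h3 (by linarith)

theorem cross_le {T ω e κ D Q Q' x x' z z' : ℝ} (hT : 0 < T) (hω : 0 < ω) (hD : 0 ≤ D)
    (hκ : 0 ≤ κ) (hQ : 0 ≤ Q) (hQ' : 0 ≤ Q') (h1 : Q ≤ κ * Q') (h2 : Q' ≤ κ * Q)
    (hx : |x| ≤ Q * D) (hx' : |x'| ≤ Q' * D)
    (hz : T * Q * ω * |z| ≤ e) (hz' : T * Q' * ω * |z'| ≤ e) :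
    ω * (T * |x * z' - z * x'|) ≤ 2 * κ * D * e ∧ ω * (T * |z * Q' - z' * Q|) ≤ 2 * κ * e := by
  have a1 : T * Q * ω * |z'| ≤ κ * e :=
    calc T * Q * ω * |z'| ≤ T * (κ * Q') * ω * |z'| := by gcongr
      _ = κ * (T * Q' * ω * |z'|) := by ring
      _ ≤ κ * e := by gcongr
  have a2 : T * Q' * ω * |z| ≤ κ * e :=
    calc T * Q' * ω * |z| ≤ T * (κ * Q) * ω * |z| := by gcongr
      _ = κ * (T * Q * ω * |z|) := by ring
      _ ≤ κ * e := by gcongr
  constructor
  · calc ω * (T * |x * z' - z * x'|) ≤ ω * (T * (Q * D * |z'| + |z| * (Q' * D))) := by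
          gcongr
          refine (abs_sub _ _).trans ?_
          rw [abs_mul, abs_mul]
          gcongr
      _ = D * (T * Q * ω * |z'| + T * Q' * ω * |z|) := by ring
      _ ≤ D * (κ * e + κ * e) := by gcongr
      _ = _ := by ring
  · calc ω * (T * |z * Q' - z' * Q|) ≤ ω * (T * (|z| * Q' + |z'| * Q)) := by
          gcongr
          refine (abs_sub _ _).trans ?_
          rw [abs_mul, abs_mul, abs_of_nonneg hQ, abs_of_nonneg hQ']
      _ = T * Q * ω * |z'| + T * Q' * ω * |z| := by ring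
      _ ≤ _ := by linarith

theorem horiz {p g q r p' q' r' : ℤ} (a b : ℝ) (hc : IsCoprime q r) (hq : q ≠ 0)
    (h : r * q' = q * r') (hne : g * q * p' ≠ p * q') :
    |(r : ℝ) + q * b| ≤
      |((p : ℝ) + g * q * a) * (r' + q' * b) - (g * r + g * q * b) * (p' + q' * a)| := by
  obtain ⟨e, he⟩ : q ∣ q' := hc.dvd_of_dvd_mul_left ⟨r', h⟩
  have hr : r' = r * e := by
    apply mul_left_cancel₀ hq
    rw [← h, he]; ring
  have hn : e * p - g * p' ≠ 0 := by
    intro h0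
    apply hne
    rw [he]
    linear_combination (-q) * h0
  have h1 : (1 : ℝ) ≤ |((e * p - g * p' : ℤ) : ℝ)| := by
    rw [← Int.cast_abs]; exact_mod_cast Int.one_le_abs hn
  have h2 : ((p : ℝ) + g * q * a) * (r' + q' * b) - (g * r + g * q * b) * (p' + q' * a) =
      (r + q * b) * ((e * p - g * p' : ℤ) : ℝ) := by
    rw [hr, he]; push_cast; ring
  rw [h2, abs_mul]
  exact le_mul_of_one_le_right (abs_nonneg _) h1

theorem Pt.ne {S : Par} {p g q r p' g' q' r' : ℤ} {c ρ c' ρ' : ℝ} (h : S.Pt p g q r c ρ)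
    (h' : S.Pt p' g' q' r' c' ρ') (hne : c ≠ c') : g * q * p' ≠ p * (g' * q') := by
  intro h0
  apply hne
  have h1 : (g : ℝ) * q * p' = p * (g' * q') := by exact_mod_cast h0
  have a1 : (g : ℝ) ≠ 0 := by exact_mod_cast (by have := h.hg; omega : g ≠ 0)
  have a2 : (q : ℝ) ≠ 0 := by exact_mod_cast (by have := h.hq; omega : q ≠ 0)
  have a3 : (g' : ℝ) ≠ 0 := by exact_mod_cast (by have := h'.hg; omega : g' ≠ 0)
  have a4 : (q' : ℝ) ≠ 0 := by exact_mod_cast (by have := h'.hq; omega : q' ≠ 0)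
  rw [h.hc, h'.hc, neg_inj, div_eq_div_iff (mul_ne_zero a1 a2) (mul_ne_zero a3 a4)]
  linarith

/-- Two objects at the same scale, both near a point that avoids all larger objects. -/
structure Near (i : ℕ) (a ω c ρ c' ρ' : ℝ) : Prop where
  h0 : 0 < ω
  l1 : ω ≤ ρ
  u1 : ρ ≤ S.R * ω
  l2 : ω ≤ ρ'
  u2 : ρ' ≤ S.R * ω
  n1 : |a - c| ≤ 2 * S.R ^ (i + 2) * ω
  n2 : |a - c'| ≤ 2 * S.R ^ (i + 2) * ω
  av : S.Av (S.R ^ (i + 2) * ω) a

theorem uniqG {i : ℕ} {a ω c ρ c' ρ' : ℝ} (N : S.Near i a ω c ρ c' ρ') (h : S.PG i c ρ)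
    (h' : S.PG i c' ρ') : c = c' := by
  by_contra hne
  obtain ⟨p, g, q, r, hp, g1, g2, g3⟩ := h
  obtain ⟨p', g', q', r', hp', g1', g2', -⟩ := h'
  have hω := N.h0
  have hR := S.R0
  have hT := S.T0
  have he := S.e0
  have hd := S.d0
  have hde := S.de
  obtain ⟨f1, -, f3, -, f5⟩ := hp.facts hω N.l1 N.u1 N.n1
  obtain ⟨f1', -, f3', -, f5'⟩ := hp'.facts hω N.l2 N.u2 N.n2
  have hB := hp.ne hp' hne
  have hP : 0 < S.R ^ (4 * i) := by positivity
  have hI : 0 < S.R ^ i := by positivity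
  rw [pow_add] at g2 g2'
  have k1 : (g * q : ℝ) ≤ S.R ^ 4 * (g' * q') := by
    apply le_of_mul_le_mul_right _ hP; linarith
  have k2 : (g' * q' : ℝ) ≤ S.R ^ 4 * (g * q) := by
    apply le_of_mul_le_mul_right _ hP; linarith
  obtain ⟨c1, c2⟩ := cross_le hT hω (by positivity) (by positivity) (by linarith) (by linarith)
    k1 k2 f5 f5' f3 f3'
  have c3 : S.T * |((p : ℝ) + g * q * a) * (g' * r' + g' * q' * S.b) -
      (g * r + g * q * S.b) * (p' + g' * q' * a)| ≤ S.d * S.R ^ i / 2 := by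
    apply le_of_mul_le_mul_left _ hω
    refine c1.trans (le_of_eq ?_)
    rw [hde]; ring
  have hdI : 0 < S.d * S.R ^ i := by positivity
  by_cases hA : r * (g' * q') = q * (g' * r')
  · have := horiz a S.b hp.cop (by have := hp.hq; omega) hA hB
    push_cast at this
    have := mul_le_mul_of_nonneg_left this hT.le
    linarith
  · have hA' : g * r * (g' * q') - g * q * (g' * r') ≠ 0 := by
      intro h0
      apply hA
      have : g ≠ 0 := by have := hp.hg; omega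
      apply mul_left_cancel₀ this
      linear_combination h0
    have eA : ((g * r * (g' * q') - g * q * (g' * r') : ℤ) : ℝ) =
        (g * r + g * q * S.b) * (g' * q') - (g' * r' + g' * q' * S.b) * (g * q) := by
      push_cast; ring
    have eB : |((g * q * p' - p * (g' * q') : ℤ) : ℝ)| ≤
        2 * (g * q) * (g' * q') * (2 * S.R ^ (i + 2) * ω) := by
      have : ((g * q * p' - p * (g' * q') : ℤ) : ℝ) =
          (g * q) * (p' + g' * q' * a) - (g' * q') * (p + g * q * a) := by push_cast; ring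
      rw [this]
      refine (abs_sub _ _).trans ?_
      rw [abs_mul, abs_mul (g' * q' : ℝ), abs_of_nonneg (by linarith : (0 : ℝ) ≤ g * q),
        abs_of_nonneg (by linarith : (0 : ℝ) ≤ g' * q')]
      have := mul_le_mul_of_nonneg_left f5' (by linarith : (0 : ℝ) ≤ g * q)
      have := mul_le_mul_of_nonneg_left f5 (by linarith : (0 : ℝ) ≤ g' * q')
      linarith
    rw [← eA] at c2
    have := S.dual_av N.av _ _ (g * r * p' - p * (g' * r')) hA' (sub_ne_zero.2 hB) i ?_ ?_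
    · have e3 : ((g * r * (g' * q') - g * q * (g' * r') : ℤ) : ℝ) * a +
          ((g * q * p' - p * (g' * q') : ℤ) : ℝ) * S.b + ((g * r * p' - p * (g' * r') : ℤ) : ℝ) =
          -(((p : ℝ) + g * q * a) * (g' * r' + g' * q' * S.b) -
            (g * r + g * q * S.b) * (p' + g' * q' * a)) := by push_cast; ring
      rw [e3, abs_neg] at this
      linarith
    · set A := |((g * r * (g' * q') - g * q * (g' * r') : ℤ) : ℝ)|
      set B := |((g * q * p' - p * (g' * q') : ℤ) : ℝ)|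
      have hA0 : 0 ≤ A := abs_nonneg _
      have hB0 : 0 ≤ B := abs_nonneg _
      have hi4 : S.R ^ i ≤ S.R ^ (4 * i) := S.pw (by omega)
      apply le_of_mul_le_mul_left _ (mul_pos hω hT)
      calc ω * S.T * (A * B * S.R ^ (4 * i)) = ω * (S.T * A) * B * S.R ^ (4 * i) := by ring
        _ ≤ 2 * S.R ^ 4 * S.e * (2 * (g * q) * (g' * q') * (2 * S.R ^ (i + 2) * ω)) *
            S.R ^ (4 * i) := by gcongr
        _ = S.d * ω * (g * q * S.R ^ i) * (g' * q' * S.R ^ (4 * i)) := by rw [hde]; ring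
        _ ≤ S.d * ω * (g * q * S.R ^ (4 * i)) * (g' * q' * S.R ^ (4 * i)) := by gcongr
        _ ≤ S.d * ω * S.T * S.T := by gcongr
        _ = _ := by ring
    · calc S.R ^ (i + 2) * ω * (S.T * |((g * r * (g' * q') - g * q * (g' * r') : ℤ) : ℝ)|)
          = S.R ^ (i + 2) * (ω * (S.T * |((g * r * (g' * q') - g * q * (g' * r') : ℤ) : ℝ)|)) := by
            ring
        _ ≤ S.R ^ (i + 2) * (2 * S.R ^ 4 * S.e) := by gcongr
        _ = S.d * S.R ^ i / 4 := by rw [hde]; ring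
        _ ≤ _ := by linarith

theorem PH_small {h i : ℕ} {g q z : ℝ} (hg : 1 ≤ g) (hq : 1 ≤ q)
    (h1 : g * q * S.R ^ (4 * i) ≤ S.T) (hi : h < i) (h2 : 4 * S.T * |z| < S.R ^ (h + 1)) :
    q * |z| < 1 / 4 := by
  have hR := S.R0
  have hT := S.T0
  have h3 : S.R ^ (h + 1) ≤ S.R ^ (4 * i) := S.pw (by omega)
  have h4 : q * S.R ^ (h + 1) ≤ S.T :=
    calc q * S.R ^ (h + 1) ≤ g * q * S.R ^ (4 * i) := by gcongr; nlinarith
      _ ≤ _ := h1
  have h5 := mul_lt_mul_of_pos_left h2 (by linarith : 0 < q)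
  apply lt_of_mul_lt_mul_left _ hT.le
  linarith

theorem ratio {T ω e R Q Q' y y' : ℝ} (hT : 0 < T) (hω : 0 < ω) (hR : 1 ≤ R) (hQ : 0 < Q)
    (hQ' : 0 < Q') (hy' : 0 < y') (h : y * Q' = y' * Q) (h1 : T * Q * ω * y ≤ e)
    (h2 : e ≤ T * Q' * (R * ω) * y') : Q ≤ R * Q' := by
  have h3 : Q * y ≤ R * Q' * y' := by
    apply le_of_mul_le_mul_left _ (mul_pos hT hω); linarith
  have h4 : Q * Q ≤ R * Q' * Q' := by
    apply le_of_mul_le_mul_right _ hy'
    have := mul_le_mul_of_nonneg_right h3 hQ'.le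
    calc Q * Q * y' = Q * y * Q' := by rw [mul_assoc Q y, h]; ring
      _ ≤ _ := by linarith
  by_contra h5
  rw [not_le] at h5
  have h6 : Q' < Q := by nlinarith
  nlinarith

theorem uniqH {i : ℕ} {a ω c ρ c' ρ' : ℝ} (N : S.Near i a ω c ρ c' ρ') (h : S.PH i c ρ)
    (h' : S.PH i c' ρ') : c = c' := by
  by_contra hne
  obtain ⟨p, g, q, r, j, hp, g1, g2, g3, g4⟩ := h
  obtain ⟨p', g', q', r', j', hp', g1', g2', -, g4'⟩ := h'
  have hω := N.h0
  have hR := S.R0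
  have hT := S.T0
  have he := S.e0
  obtain ⟨f1, f2, f3, f4, f5⟩ := hp.facts hω N.l1 N.u1 N.n1
  obtain ⟨f1', f2', f3', f4', f5'⟩ := hp'.facts hω N.l2 N.u2 N.n2
  have hB := hp.ne hp' hne
  have a1 : (1 : ℝ) ≤ g := by exact_mod_cast hp.hg
  have a2 : (1 : ℝ) ≤ q := by exact_mod_cast hp.hq
  have a3 : (1 : ℝ) ≤ g' := by exact_mod_cast hp'.hg
  have a4 : (1 : ℝ) ≤ q' := by exact_mod_cast hp'.hq
  have s1 := S.PH_small a1 a2 g1 g2 g4'
  have s2 := S.PH_small a3 a4 g1' g2' g4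
  have hdet : r * q' = q * r' := by
    by_contra h0
    have h1 : (1 : ℝ) ≤ |((r * q' - q * r' : ℤ) : ℝ)| := by
      rw [← Int.cast_abs]; exact_mod_cast Int.one_le_abs (sub_ne_zero.2 h0)
    have h2 : ((r * q' - q * r' : ℤ) : ℝ) = q' * (r + q * S.b) - q * (r' + q' * S.b) := by
      push_cast; ring
    have h3 := abs_sub (q' * (r + q * S.b) : ℝ) (q * (r' + q' * S.b))
    rw [abs_mul, abs_mul, abs_of_nonneg (by linarith : (0 : ℝ) ≤ q),
      abs_of_nonneg (by linarith : (0 : ℝ) ≤ q'), ← h2] at h3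
    linarith
  have hdet' : (r : ℝ) * q' = q * r' := by exact_mod_cast hdet
  have hy : |(g * r : ℝ) + g * q * S.b| * (g' * q') =
      |(g' * r' : ℝ) + g' * q' * S.b| * (g * q) := by
    have : ((g * r : ℝ) + g * q * S.b) * (g' * q') =
        ((g' * r' : ℝ) + g' * q' * S.b) * (g * q) := by
      linear_combination (g * g') * hdet'
    have h2 := congrArg abs this
    rwa [abs_mul _ (g' * q' : ℝ), abs_mul _ (g * q : ℝ),
      abs_of_nonneg (by linarith : (0 : ℝ) ≤ g * q),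
      abs_of_nonneg (by linarith : (0 : ℝ) ≤ g' * q')] at h2
  have k1 := ratio hT hω S.R1 (by linarith) (by linarith) f2' hy f3 f4'
  have k2 := ratio hT hω S.R1 (by linarith) (by linarith) f2 hy.symm f3' f4
  obtain ⟨c1, -⟩ := cross_le hT hω (by positivity) hR.le (by linarith) (by linarith)
    k1 k2 f5 f5' f3 f3'
  have c3 : S.T * |((p : ℝ) + g * q * a) * (g' * r' + g' * q' * S.b) -
      (g * r + g * q * S.b) * (p' + g' * q' * a)| ≤ 4 * (S.e * S.R ^ 3) * S.R ^ i := by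
    apply le_of_mul_le_mul_left _ hω
    refine c1.trans (le_of_eq ?_)
    ring
  have h5 := horiz (q' := g' * q') (r' := g' * r') a S.b hp.cop (by have := hp.hq; omega)
    (by linear_combination g' * hdet) hB
  push_cast at h5
  have h6 := mul_le_mul_of_nonneg_left h5 hT.le
  have h7 : S.e * S.R ^ 3 ≤ 1 / 128 :=
    (mul_le_mul_of_nonneg_left (S.pw (by norm_num)) he.le).trans S.eR
  have hI : 0 < S.R ^ i := by positivity
  nlinarith

theorem dual_core {T ω δ R X A A' B B' D D' : ℝ} (hT : 0 < T) (hω : 0 < ω) (hδ : 0 < δ)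
    (hR : 0 < R) (hX : 0 < X) (l1 : T * |A| * ω ≤ δ * X) (u1 : δ * X ≤ T * |A| * (R * ω))
    (l2 : T * |A'| * ω ≤ δ * X) (u2 : δ * X ≤ T * |A'| * (R * ω))
    (n1 : |A| * |B| * X ^ 4 ≤ δ * T) (n2 : |A'| * |B'| * X ^ 4 ≤ δ * T)
    (d1 : |D| ≤ |A| * (2 * (X * R ^ 2) * ω)) (d2 : |D'| ≤ |A'| * (2 * (X * R ^ 2) * ω)) :
    |A * B' - B * A'| * X ^ 4 ≤ 2 * R * δ * T ∧
    T * |B' * D - B * D'| * |A * D' - A' * D| ≤ 16 * R ^ 5 * δ ^ 3 ∧
    X * R ^ 2 * ω * (T * |A * B' - B * A'| * |A * D' - A' * D|) ≤ 16 * R ^ 5 * δ ^ 3 := by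
  have hTω := mul_pos hT hω
  have k1 : |A| ≤ R * |A'| := by
    apply le_of_mul_le_mul_left _ hTω; linarith
  have k2 : |A'| ≤ R * |A| := by
    apply le_of_mul_le_mul_left _ hTω; linarith
  have m1 : |A| * |B'| * X ^ 4 ≤ R * δ * T :=
    calc |A| * |B'| * X ^ 4 ≤ R * |A'| * |B'| * X ^ 4 := by gcongr
      _ = R * (|A'| * |B'| * X ^ 4) := by ring
      _ ≤ R * (δ * T) := by gcongr
      _ = _ := by ring
  have m2 : |A'| * |B| * X ^ 4 ≤ R * δ * T :=
    calc |A'| * |B| * X ^ 4 ≤ R * |A| * |B| * X ^ 4 := by gcongr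
      _ = R * (|A| * |B| * X ^ 4) := by ring
      _ ≤ R * (δ * T) := by gcongr
      _ = _ := by ring
  set d := 2 * (X * R ^ 2) * ω with hd
  have hd0 : 0 < d := by positivity
  have q1 : |A * B' - B * A'| * X ^ 4 ≤ 2 * R * δ * T :=
    calc |A * B' - B * A'| * X ^ 4 ≤ (|A| * |B'| + |B| * |A'|) * X ^ 4 := by
          gcongr
          refine (abs_sub _ _).trans ?_
          rw [abs_mul, abs_mul]
      _ ≤ _ := by linarith
  have q2 : |B' * D - B * D'| * X ^ 4 ≤ 2 * R * δ * T * d :=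
    calc |B' * D - B * D'| * X ^ 4 ≤ (|B'| * (|A| * d) + |B| * (|A'| * d)) * X ^ 4 := by
          gcongr
          refine (abs_sub _ _).trans ?_
          rw [abs_mul, abs_mul]
          gcongr
      _ = (|A| * |B'| * X ^ 4 + |A'| * |B| * X ^ 4) * d := by ring
      _ ≤ (R * δ * T + R * δ * T) * d := by gcongr
      _ = _ := by ring
  have q3 : (T * ω) ^ 2 * |A * D' - A' * D| ≤ 2 * δ ^ 2 * X ^ 2 * d :=
    calc (T * ω) ^ 2 * |A * D' - A' * D|
        ≤ (T * ω) ^ 2 * (|A| * (|A'| * d) + |A'| * (|A| * d)) := by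
          gcongr
          refine (abs_sub _ _).trans ?_
          rw [abs_mul, abs_mul]
          gcongr
      _ = 2 * (T * |A| * ω) * (T * |A'| * ω) * d := by ring
      _ ≤ 2 * (δ * X) * (δ * X) * d := by gcongr
      _ = _ := by ring
  refine ⟨q1, ?_, ?_⟩
  · apply le_of_mul_le_mul_left _ (show 0 < T * ω ^ 2 * X ^ 4 by positivity)
    calc T * ω ^ 2 * X ^ 4 * (T * |B' * D - B * D'| * |A * D' - A' * D|)
        = |B' * D - B * D'| * X ^ 4 * ((T * ω) ^ 2 * |A * D' - A' * D|) := by ring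
      _ ≤ 2 * R * δ * T * d * (2 * δ ^ 2 * X ^ 2 * d) := by gcongr
      _ = _ := by rw [hd]; ring
  · apply le_of_mul_le_mul_left _ (show 0 < T * ω * X ^ 4 by positivity)
    calc T * ω * X ^ 4 * (X * R ^ 2 * ω * (T * |A * B' - B * A'| * |A * D' - A' * D|))
        = X * R ^ 2 * (|A * B' - B * A'| * X ^ 4) * ((T * ω) ^ 2 * |A * D' - A' * D|) := by ring
      _ ≤ X * R ^ 2 * (2 * R * δ * T) * (2 * δ ^ 2 * X ^ 2 * d) := by gcongr
      _ = T * ω * X ^ 4 * (8 * R ^ 5 * δ ^ 3) := by rw [hd]; ring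
      _ ≤ _ := by gcongr; norm_num

theorem uniqD {i : ℕ} {a ω c ρ c' ρ' : ℝ} (N : S.Near i a ω c ρ c' ρ') (h : S.PD i c ρ)
    (h' : S.PD i c' ρ') : c = c' := by
  by_contra hne
  obtain ⟨A, B, C, hA, hB, g1, -, hc, hρ⟩ := h
  obtain ⟨A', B', C', hA', -, g1', -, hc', hρ'⟩ := h'
  have hω := N.h0
  have hR := S.R0
  have hT := S.T0
  have hT1 := S.hT
  have hd := S.d0
  have a1 : (A : ℝ) ≠ 0 := by exact_mod_cast hA
  have a2 : (A' : ℝ) ≠ 0 := by exact_mod_cast hA'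
  have b1 : 0 < S.T * |(A : ℝ)| := by positivity
  have b2 : 0 < S.T * |(A' : ℝ)| := by positivity
  obtain ⟨-, l1, u1, l2, u2, n1, n2, av⟩ := N
  rw [hρ] at l1 u1
  rw [hρ'] at l2 u2
  rw [le_div_iff₀ b1] at l1
  rw [le_div_iff₀ b2] at l2
  rw [div_le_iff₀ b1] at u1
  rw [div_le_iff₀ b2] at u2
  have e4 : S.R ^ (4 * i) = (S.R ^ i) ^ 4 := by ring
  rw [e4] at g1 g1'
  rw [pow_add] at n1 n2 av
  have hX1 : 1 ≤ S.R ^ i := one_le_pow₀ S.R1
  have d1 : |A * a + B * S.b + C| ≤ |(A : ℝ)| * (2 * (S.R ^ i * S.R ^ 2) * ω) := by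
    have : A * a + B * S.b + C = A * (a - c) := by rw [hc]; field_simp; ring
    rw [this, abs_mul]; gcongr
  have d2 : |A' * a + B' * S.b + C'| ≤ |(A' : ℝ)| * (2 * (S.R ^ i * S.R ^ 2) * ω) := by
    have : A' * a + B' * S.b + C' = A' * (a - c') := by rw [hc']; field_simp; ring
    rw [this, abs_mul]; gcongr
  obtain ⟨q1, q2, q3⟩ := dual_core hT hω hd hR (by linarith) (by linarith) (by linarith)
    (by linarith) (by linarith) g1 g1' d1 d2
  set q : ℤ := A * B' - B * A' with hq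
  set p : ℤ := C * B' - B * C' with hp
  set r : ℤ := A * C' - C * A' with hr
  have eq : (A : ℝ) * B' - B * A' = q := by rw [hq]; push_cast; ring
  have ep : B' * (A * a + B * S.b + C) - B * (A' * a + B' * S.b + C') = p + q * a := by
    rw [hq, hp]; push_cast; ring
  have er : A * (A' * a + B' * S.b + C') - A' * (A * a + B * S.b + C) = r + q * S.b := by
    rw [hq, hr]; push_cast; ring
  rw [eq] at q1 q3
  rw [ep] at q2
  rw [er] at q2 q3
  have h3 := S.d3
  have hqT : |(q : ℝ)| ≤ S.T := by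
    have h4 := S.dRk (k := 1) (by norm_num)
    have h5 : 1 ≤ (S.R ^ i) ^ 4 := one_le_pow₀ hX1
    have h6 := mul_le_mul_of_nonneg_left h5 (abs_nonneg (q : ℝ))
    rw [pow_one] at h4
    nlinarith
  rcases lt_trichotomy q 0 with h0 | h0 | h0
  · have h1 : (q : ℝ) < 0 := by exact_mod_cast h0
    rw [abs_of_neg h1] at hqT q3
    have e1 : |((-r : ℤ) : ℝ) + ((-q : ℤ) : ℝ) * S.b| = |r + q * S.b| := by
      rw [← abs_neg]; push_cast; congr 1; ring
    have e2 : |((-p : ℤ) : ℝ) + ((-q : ℤ) : ℝ) * a| = |p + q * a| := by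
      rw [← abs_neg]; push_cast; congr 1; ring
    have := S.prim_av av (-p) (-r) (-q) (by omega) (by push_cast; exact hqT)
      (by rw [e1]; push_cast; linarith)
    rw [e1, e2] at this
    linarith
  · have hr0 : r ≠ 0 := by
      intro h1
      apply hne
      have e1 : (A : ℝ) * B' - B * A' = 0 := by rw [eq, h0]; simp
      have e2 : (A : ℝ) * C' - C * A' = 0 := by exact_mod_cast hr ▸ h1
      rw [hc, hc', neg_inj, div_eq_div_iff a1 a2]
      linear_combination (-S.b) * e1 - e2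
    have hp0 : p ≠ 0 := by
      intro h1
      have : B * r = 0 := by
        have : B * r = -A * p + C * q := by rw [hr, hp, hq]; ring
        rw [this, h1, h0]; ring
      rcases mul_eq_zero.1 this with h2 | h2
      · exact hB h2
      · exact hr0 h2
    have h1 : (1 : ℝ) ≤ |(r : ℝ)| := by rw [← Int.cast_abs]; exact_mod_cast Int.one_le_abs hr0
    have h2 : (1 : ℝ) ≤ |(p : ℝ)| := by rw [← Int.cast_abs]; exact_mod_cast Int.one_le_abs hp0
    rw [h0] at q2
    simp only [Int.cast_zero, zero_mul, add_zero] at q2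
    have h4 : S.e * S.R ^ 0 ≤ 1 / 128 :=
      (mul_le_mul_of_nonneg_left (S.pw (by norm_num)) S.e0.le).trans S.eR
    have h5 : 1 * 1 * 1 ≤ S.T * |(p : ℝ)| * |(r : ℝ)| := by gcongr
    simp only [pow_zero, mul_one] at h4 h5
    linarith
  · have h1 : (0 : ℝ) < q := by exact_mod_cast h0
    rw [abs_of_pos h1] at hqT q3
    have := S.prim_av av p r q (by omega) hqT (by linarith)
    linarith

theorem uniq {f : Fin 3} {i : ℕ} {a ω c ρ c' ρ' : ℝ} (N : S.Near i a ω c ρ c' ρ')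
    (h : S.Ob f i c ρ) (h' : S.Ob f i c' ρ') : c = c' := by
  rcases h with ⟨rfl, h⟩ | ⟨rfl, h⟩ | ⟨rfl, h⟩ <;> rcases h' with ⟨e, h'⟩ | ⟨e, h'⟩ | ⟨e, h'⟩ <;>
    first
    | exact absurd e (by decide)
    | exact S.uniqG N h h'
    | exact S.uniqH N h h'
    | exact S.uniqD N h h'

end Pool.Agent.P.MP_e45b92_nt.Par
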